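import Pool.Agent.Y128.CV.VarDefs

/-!
# Classes in the K-theory of an admissible subcategory
-/

set_option autoImplicit false

namespace Pool.Agent.Y128.CV

open Pool.Agent.H204R3.GP Pool.Agent.H204R3.SP

variable {K X Γ : Type} [Field K] [AddCommGroup X] [Module K X] [Group Γ]

/-- The sum over all `m < M` of the spaces of forms in `2 m` variables: the topological K-theory
of the fibre. -/
abbrev AllForms (K X : Type) [Field K] [AddCommGroup X] [Module K X] (M : ℕ) : Type :=
  ∀ m : Fin M, Forms K X m

/-- All components are combinations of classes of algebraic cycles: the image of the algebraic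
K-theory of the fibre under the Chern character. -/
def AllAlgebraic {M : ℕ} (alg : ∀ m, Submodule K (Forms K X m)) (α : AllForms K X M) : Prop :=
  ∀ m : Fin M, α m ∈ alg m

/-- The projector `e` onto the K-theory of the fibres of a relative admissible subcategory (a linear
map; this is not used): it is idempotent and, being given by a relative kernel, maps algebraic
classes to algebraic classes in both fibres. -/
structure AdmissibleProjector {M : ℕ} (e : AllForms K X M → AllForms K X M)
    (alg alg' : ∀ m, Submodule K (Forms K X m)) : Prop where
  idempotent : ∀ α, e (e α) = e α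
  first : ∀ α, AllAlgebraic alg α → AllAlgebraic alg (e α)
  second : ∀ α, AllAlgebraic alg' α → AllAlgebraic alg' (e α)

/-- The class `φ` is in the image of the algebraic K-theory of the admissible subcategory. -/
def IsAlgebraicClass {M : ℕ} (e : AllForms K X M → AllForms K X M)
    (alg : ∀ m, Submodule K (Forms K X m)) (φ : AllForms K X M) : Prop :=
  ∃ α, AllAlgebraic alg α ∧ e α = φ

/-- The noncommutative variational Hodge conjecture for the two fibres: flat classes of the
admissible subcategory (over a finite covering of the base) which are algebraic in the first fibre are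
algebraic in the second one. -/
def NoncommutativeVariational {M : ℕ} (R : Representation K Γ X) (χ : Γ →* K)
    (e : AllForms K X M → AllForms K X M) (alg alg' : ∀ m, Submodule K (Forms K X m)) : Prop :=
  ∀ φ : AllForms K X M, (∀ m : Fin M, IsTate R χ m (φ m)) → IsAlgebraicClass e alg φ →
    IsAlgebraicClass e alg' φ

/-- From the variational Hodge conjecture to the noncommutative one. -/
theorem nc_of_flat {M : ℕ} {R : Representation K Γ X} {χ : Γ →* K}
    {e : AllForms K X M → AllForms K X M} {alg alg' : ∀ m, Submodule K (Forms K X m)}
    (he : AdmissibleProjector e alg alg') (h : FlatClassesStayAlgebraic R χ alg alg') :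
    NoncommutativeVariational R χ e alg alg' := by
  rintro φ hφ ⟨α, hα, rfl⟩
  exact ⟨e α, fun m => h (m : ℕ) _ (hφ m) (he.first α hα m), he.idempotent α⟩

end Pool.Agent.Y128.CV
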