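import Pool.Agent.TH118.IS.Four
import Pool.Agent.TH118.CR.Final

/-!
# Complex reflections in the presence of one-dimensional subspaces
-/

set_option autoImplicit false
set_option linter.unusedSectionVars false

namespace Pool.Agent.Y128.CV

open Module Pool.Agent.H204R3.SP Pool.Agent.H204R3.GP Pool.Agent.W522.U Pool.Agent.TH118.WC
  Pool.Agent.TH118.CR Pool.Agent.TH118.IS

variable {K : Type} [Field K] [CharZero K] [IsAlgClosed K] {X : Type} [AddCommGroup X]
  [Module K X] [FiniteDimensional K X] {Γ : Type} [Group Γ] {R : Representation K Γ X}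
  {χ : Γ →* K} {I : Type} {E F : I → Submodule K X} {big : I → Prop}

/-- The dimension of isomorphic strongly irreducible subspaces. -/
theorem tw_rank {U U' : Submodule K X} (hU : SI R U) (hU' : SI R U') {ψ : Γ → K}
    (h : Tw R ψ U U') : finrank K U = finrank K U' := by
  obtain ⟨Δ, hΔ, T, hTU, h0, hT⟩ := h
  obtain ⟨e, -⟩ := tw_equiv hU hU' hΔ hTU h0 hT
  exact e.finrank_eq

/-- The space is the sum of strongly irreducible subspaces, big ones with reflections and Frobenius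
elements and one-dimensional ones which are not dual to themselves. -/
theorem refl_det_line (ω : X →ₗ[K] X →ₗ[K] K) (hnd : ∀ u, (∀ v, ω u v = 0) → u = 0)
    (hωR : ∀ g u v, ω (R g u) (R g v) = χ g * ω u v) (hss : HasProj R)
    (hE : SumOfSI R E) (hbig : ∀ i, big i → 3 ≤ finrank K (E i))
    (hsmall : ∀ i, ¬big i → finrank K (E i) = 1)
    (hF : ⨆ j, F j = ⊤) (hFst : ∀ j, Pot R (F j)) (hF2 : ∀ j, 2 ≤ finrank K (F j))
    (hFE : ∀ i, big i → F i = E i)
    (hrefl : ∀ i, big i → ∃ γ : Γ, (∃ k : ℕ, 0 < k ∧ R γ ^ k = 1) ∧ ∃ ε : I → K,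
      (∀ j, ReflectsOn R γ (F j) (ε j)) ∧ ε i ≠ 1 ∧ ε i ≠ -1 ∧
        ∀ j, big j → j ≠ i → ε j ≠ ε i)
    (hFrob : ∀ i, big i → ∃ (G : Γ) (b : Basis (Fin (finrank K X)) K X),
      (∀ k, ∃ a : K, R G (b k) = a • b k) ∧ ∃ u ∈ E i, ∃ v ∈ E i, u ≠ 0 ∧ v ≠ 0 ∧
        ∃ al be : K, R G u = al • u ∧ R G v = be • v ∧ ∀ k : ℕ, 0 < k → al ^ k ≠ be ^ k)
    (hline : ∀ i, ¬big i → ¬Du R χ (E i) (E i))
    {m : ℕ} (φ : MultilinearMap K (fun _ : Fin m × Fin 2 => X) K) (hφ : IsTate R χ m φ) :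
    φ ∈ Submodule.span K (DetProd R χ m) := by
  classical
  have hst : ∀ j, ∀ Y ∈ lieT R χ, ∀ u ∈ F j, Y u ∈ F j := fun j Y hY =>
    lieT_stable ω hnd hωR hss (hFst j) hY
  have hN : ∀ i, big i → ∃ N ∈ lieT R χ, N * N = 0 ∧ finrank K ((E i).map N) = 1 := by
    intro i hi
    obtain ⟨γ, ⟨k, hk, hγ⟩, ε, hr, hε1, hε2, -⟩ := hrefl i hi
    obtain ⟨G, b, hb, u, hu, v, hv, hu0, hv0, al, be, hal, hbe, hab⟩ := hFrob i hi
    have h1 := refl_N F hF hst hF2 hk hγ ε hr i hε1 hε2 (by rw [hFE i hi]; exact hE.1 i) (by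
      rw [hFE i hi]
      obtain ⟨Y, hY, s, t, hst', hYu, hYv⟩ := exists_nonscalar R χ G b hb hu0 hv0 hal hbe hab
      refine ⟨Y, hY, ?_⟩
      rintro ⟨a, ha⟩
      apply hst'
      have h3 : s = a := by
        have h4 : (s - a) • u = 0 := by rw [sub_smul, ← hYu, ha u hu, sub_self]
        exact sub_eq_zero.1 ((smul_eq_zero.1 h4).resolve_right hu0)
      have h5 : t = a := by
        have h4 : (t - a) • v = 0 := by rw [sub_smul, ← hYv, ha v hv, sub_self]
        exact sub_eq_zero.1 ((smul_eq_zero.1 h4).resolve_right hv0)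
      rw [h3, h5])
    rw [hFE i hi] at h1
    exact h1
  have hsep : ∀ i j (ψ : Γ → K), big i → big j → Tw R ψ (E i) (E j) → i = j := by
    intro i j ψ hi hj h
    by_contra hij
    obtain ⟨γ, -, ε, hr, hε1, -, hε⟩ := hrefl i hi
    have hri := hr i
    have hrj := hr j
    rw [hFE i hi] at hri
    rw [hFE j hj] at hrj
    exact sep (hE.1 i) (hE.1 j) (hbig i hi) hri hrj hε1 (hε j hj (Ne.symm hij)) ψ h
  have hex : ∀ U, SI R U → ∃ i, Tw R (fun _ => 1) U (E i) := fun U hU => exists_iso' hss hE hU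
  have hdim : ∀ U, SI R U → ∀ i, Tw R (fun _ => 1) U (E i) → finrank K U = finrank K (E i) :=
    fun U hU i h => tw_rank hU (hE.1 i) h
  refine nil_det ω hnd hωR ?_ hss ?_ ?_ φ hφ
  · intro U hU h2
    obtain ⟨i, hi⟩ := hex U hU
    have hbi : big i := by
      by_contra hb
      have h3 := hdim U hU i hi
      rw [hsmall i hb] at h3
      omega
    obtain ⟨N, hN1, hN2, hN3⟩ := hN i hbi
    refine ⟨N, hN1, hN2, ?_⟩
    rw [← rank_transfer ω hnd hωR hss hU (hE.1 i) hi hN1]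
    exact hN3
  · intro U hU h1 hdu
    obtain ⟨i, hi⟩ := hex U hU
    have hbi : ¬big i := by
      intro hb
      have h3 := hdim U hU i hi
      have h4 := hbig i hb
      omega
    apply hline i hbi
    have hi' := hi.symm1 hU (hE.1 i)
    have h5 : Du R χ (E i) U := Tw.du hU (hE.1 i) hi' hdu
    exact Tw.du hU (hE.1 i) hi' h5.symm
  · intro U U' hU hU' h2 _ ψ hψ
    obtain ⟨i, hi⟩ := hex U hU
    obtain ⟨j, hj⟩ := hex U' hU'
    have hr1 := hdim U hU i hi
    have hr2 := hdim U' hU' j hj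
    have hr3 := tw_rank hU hU' hψ
    have hbi : big i := by
      by_contra hb
      rw [hsmall i hb] at hr1
      omega
    have hbj : big j := by
      by_contra hb
      rw [hsmall j hb] at hr2
      omega
    have h3 := ((hi.symm1 hU (hE.1 i)).trans hU hψ).trans hU' hj
    have hij := hsep i j _ hbi hbj h3
    subst hij
    exact hi.trans1 (hE.1 i) (hj.symm1 hU' (hE.1 i))

/-- Transport of a product of determinants to the given subspaces. -/
theorem detProd_transport (hss : HasProj R) (hE : SumOfSI R E) {m : ℕ}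
    (S : Set (MultilinearMap K (fun _ : Fin m × Fin 2 => X) K))
    (hS : ∀ (φ : MultilinearMap K (fun _ : Fin m × Fin 2 => X) K) (P Q : Type) (_ : Fintype P)
      (_ : Fintype Q) (κ : Q → I) (N : Q → ℕ) (f : ∀ q, Basis (Fin (N q)) K (E (κ q)))
      (e : (P × Fin 2) ⊕ (Σ q, Fin (N q)) ≃ Fin m × Fin 2) (B : P → X →ₗ[K] X →ₗ[K] K)
      (B' : ∀ q, Fin (N q) → X →ₗ[K] X →ₗ[K] K), (∀ p, IsTate2 R χ (B p)) →
      (∀ q s, IsTate2 R χ (B' q s)) →
      (∃ (d : ℕ) (Δ : Subgroup Γ) (h : ∀ q, ∀ g ∈ Δ, ∀ u ∈ E (κ q), R g u ∈ E (κ q)),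
        Δ.FiniteIndex ∧ 2 * d = ∑ q, finrank K (E (κ q)) ∧
        ∀ (g : Γ) (hg : g ∈ Δ), ∏ q, LinearMap.det ((R g).restrict (h q g hg)) = χ g ^ d) →
      (∀ v, φ v = (∏ p, B p (v (e (Sum.inl (p, 0)))) (v (e (Sum.inl (p, 1))))) *
        ∏ q, Matrix.det (Matrix.of fun s s' => B' q s (v (e (Sum.inr ⟨q, s⟩))) (f q s' : X))) →
      φ ∈ S) (φ : MultilinearMap K (fun _ : Fin m × Fin 2 => X) K)
    (hφ : φ ∈ Submodule.span K (DetProd R χ m)) : φ ∈ Submodule.span K S := by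
  classical
  refine Submodule.span_mono ?_ hφ
  rintro ψ ⟨P, Q, hP, hQ, U, f, e, B, C, hB, hC, hU, -, ⟨d, Δ, hst, hΔ, hd, hdetΔ⟩, hψ⟩
  choose κ hκ using fun q => exists_iso' hss hE (hU q)
  have hκ' := fun q => (hκ q).symm1 (hU q) (hE.1 (κ q))
  choose Δ' hΔ' T hTU h0 hT using hκ'
  choose D hD hDst using fun q => (hE.1 (κ q)).2.1
  choose pr hpr1 hpr2 hpr3 using fun q => hss (D q) (hD q) (E (κ q)) (hDst q)
  have heq : ∀ q, ∃ e : E (κ q) ≃ₗ[K] U q, ∀ u : E (κ q), (e u : X) = T q u := fun q =>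
    tw_equiv (hE.1 (κ q)) (hU q) (hΔ' q) (hTU q) (h0 q) (hT q)
  choose eq heq' using heq
  let Δ₁ : Subgroup Γ := Δ ⊓ ⨅ q, Δ' q ⊓ D q
  have hΔ₁ : Δ₁.FiniteIndex := by
    have h1 : (⨅ q, Δ' q ⊓ D q).FiniteIndex := Subgroup.finiteIndex_iInf fun q => inferInstance
    infer_instance
  have hm : ∀ g ∈ Δ₁, g ∈ Δ ∧ ∀ q, g ∈ Δ' q ∧ g ∈ D q := fun g hg =>
    ⟨hg.1, fun q => Subgroup.mem_iInf.1 hg.2 q⟩
  have hst₁ : ∀ q, ∀ g ∈ Δ₁, ∀ u ∈ E (κ q), R g u ∈ E (κ q) :=
    fun q g hg u hu => hDst q g ((hm g hg).2 q).2 u hu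
  refine hS ψ P Q hP hQ κ (fun q => finrank K (U q)) (fun q => (f q).map (eq q).symm) e B
    (fun q s => (C q s).compl₂ (T q ∘ₗ pr q)) hB (fun q s => ?_)
    ⟨d, Δ₁, hst₁, hΔ₁, ?_, fun g hg => ?_⟩ (fun v => ?_)
  · obtain ⟨Δc, hΔc, hc⟩ := hC q s
    refine ⟨Δc ⊓ (Δ' q ⊓ D q), inferInstance, fun g hg u v => ?_⟩
    rw [LinearMap.compl₂_apply, LinearMap.compl₂_apply, LinearMap.comp_apply,
      LinearMap.comp_apply, hpr3 q g hg.2.2, hT q g hg.2.1 _ (hpr1 q v), one_smul, hc g hg.1]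
  · rw [hd]
    exact Finset.sum_congr rfl fun q _ => (eq q).symm.finrank_eq
  · rw [← hdetΔ g (hm g hg).1]
    refine Finset.prod_congr rfl fun q _ => ?_
    have h1 := det_tw (eq q).symm ((R g).restrict (hst q g (hm g hg).1))
      ((R g).restrict (hst₁ q g hg)) 1 (fun u => by
        apply (eq q).injective
        rw [one_smul, LinearEquiv.apply_symm_apply]
        apply Subtype.ext
        rw [heq']
        have h2 := hT q g ((hm g hg).2 q).1 ((eq q).symm u) ((eq q).symm u).2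
        rw [one_smul] at h2
        have h3 : T q ((eq q).symm u : X) = (u : X) := by
          rw [← heq' q, LinearEquiv.apply_symm_apply]
        rw [h3] at h2
        exact h2.symm)
    rw [h1, one_pow, one_mul]
  · rw [hψ]
    congr 1
    refine Finset.prod_congr rfl fun q _ => ?_
    congr 1
    ext s s'
    rw [Matrix.of_apply, Matrix.of_apply, LinearMap.compl₂_apply, LinearMap.comp_apply,
      Basis.map_apply, hpr2 q _ ((eq q).symm (f q s')).2, ← heq' q,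
      LinearEquiv.apply_symm_apply]

end Pool.Agent.Y128.CV
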