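import Pool.Agent.Y128.CV.CycDefs

/-!
# Classes of algebraic cycles
-/

set_option autoImplicit false

namespace Pool.Agent.Y128.CV

open Module Pool.Agent.H204R3.GP Pool.Agent.H204R3.SP

variable {K X Γ : Type} [Field K] [AddCommGroup X] [Module K X] [Group Γ]

variable {R : Representation K Γ X} {χ : Γ →* K}

theorem act_apply {m : ℕ} (g : Γ) (φ : Forms K X m) (v : Fin m × Fin 2 → X) :
    act R χ m g φ v = χ g ^ m * φ fun l => R g⁻¹ (v l) := rfl

theorem act_mul {m : ℕ} (g h : Γ) (φ : Forms K X m) :
    act R χ m (g * h) φ = act R χ m g (act R χ m h φ) := by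
  refine MultilinearMap.ext fun v => ?_
  rw [act_apply, act_apply, act_apply, map_mul, mul_pow, mul_assoc, mul_inv_rev]
  congr 2
  refine congrArg φ (funext fun l => ?_)
  rw [map_mul]
  rfl

theorem act_sum {m : ℕ} {I : Type} (s : Finset I) (g : Γ) (φ : I → Forms K X m) :
    act R χ m g (∑ i ∈ s, φ i) = ∑ i ∈ s, act R χ m g (φ i) := by
  refine MultilinearMap.ext fun v => ?_
  rw [act_apply, MultilinearMap.sum_apply, MultilinearMap.sum_apply, Finset.mul_sum]
  rfl

theorem act_smul {m : ℕ} (g : Γ) (a : K) (φ : Forms K X m) :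
    act R χ m g (a • φ) = a • act R χ m g φ := by
  refine MultilinearMap.ext fun v => ?_
  rw [act_apply, MultilinearMap.smul_apply, MultilinearMap.smul_apply, act_apply, smul_eq_mul,
    smul_eq_mul, mul_left_comm]

theorem act_eq {m : ℕ} {φ : Forms K X m} {g : Γ}
    (h : ∀ v, φ (fun l => R g (v l)) = χ g ^ m * φ v) : act R χ m g φ = φ := by
  refine MultilinearMap.ext fun v => ?_
  rw [act_apply, ← h]
  refine congrArg φ (funext fun l => ?_)
  rw [← Module.End.mul_apply, ← map_mul, mul_inv_cancel, map_one]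
  rfl

theorem invariant_of {m : ℕ} {φ : Forms K X m} (h : ∀ g, act R χ m g φ = φ) :
    IsInvariant R χ m φ := by
  intro g v
  have h1 := congrArg (fun ψ : Forms K X m => ψ fun l => R g (v l)) (h g)
  simp only [act_apply] at h1
  rw [← h1]
  congr 1
  refine congrArg φ (funext fun l => ?_)
  rw [← Module.End.mul_apply, ← map_mul, inv_mul_cancel, map_one]
  rfl

/-- Invariant combinations of classes are combinations of invariant classes. -/
theorem span_invariants [CharZero K] {m : ℕ} (A : AddSubgroup (Forms K X m))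
    (htate : ∀ α ∈ A, IsTate R χ m α) (hst : ∀ g, ∀ α ∈ A, act R χ m g α ∈ A)
    {φ : Forms K X m} (hφ : IsInvariant R χ m φ)
    (h : φ ∈ Submodule.span K (A : Set (Forms K X m))) :
    φ ∈ Submodule.span K {α | α ∈ A ∧ IsInvariant R χ m α} := by
  classical
  obtain ⟨n, c, α, rfl⟩ := Submodule.mem_span_set'.1 h
  choose Δ hΔ hα using fun i => htate _ (α i).2
  let N : Subgroup Γ := (⨅ i, Δ i).normalCore
  have hD : (⨅ i, Δ i).FiniteIndex := Subgroup.finiteIndex_iInf hΔ
  have hN : N.FiniteIndex := inferInstance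
  have hfix : ∀ i, ∀ g ∈ N, act R χ m g (α i : Forms K X m) = α i := by
    intro i g hg
    have h1 : g ∈ ⨅ i, Δ i := Subgroup.normalCore_le _ hg
    exact act_eq (hα i g (Subgroup.mem_iInf.1 h1 i))
  have : Fintype (Γ ⧸ N) := Subgroup.fintypeQuotientOfFiniteIndex
  -- the trace
  let tr : Forms K X m → Forms K X m := fun ψ => ∑ q : Γ ⧸ N, act R χ m q.out ψ
  have hrep : ∀ i (g h : Γ), (g : Γ ⧸ N) = h → act R χ m g (α i : Forms K X m) =
      act R χ m h (α i : Forms K X m) := by
    intro i g h hgh
    have h1 : g⁻¹ * h ∈ N := QuotientGroup.eq.1 hgh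
    have h2 : h = g * (g⁻¹ * h) := by group
    rw [h2, act_mul, hfix i _ h1]
  have htrinv : ∀ i, IsInvariant R χ m (tr (α i)) := by
    intro i
    refine invariant_of fun g => ?_
    change act R χ m g (∑ q : Γ ⧸ N, act R χ m q.out (α i : Forms K X m)) = _
    rw [act_sum]
    have h1 : ∀ q : Γ ⧸ N, act R χ m g (act R χ m q.out (α i : Forms K X m)) =
        act R χ m (g • q).out (α i : Forms K X m) := by
      intro q
      rw [← act_mul]
      refine hrep i _ _ ?_
      calc ((g * q.out : Γ) : Γ ⧸ N) = g • ((q.out : Γ) : Γ ⧸ N) := rfl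
        _ = g • q := by rw [QuotientGroup.out_eq']
        _ = ((g • q).out : Γ ⧸ N) := (QuotientGroup.out_eq' _).symm
    rw [Finset.sum_congr rfl fun q _ => h1 q]
    exact Equiv.sum_comp (MulAction.toPerm g) fun q : Γ ⧸ N =>
      act R χ m q.out (α i : Forms K X m)
  have htrA : ∀ i, tr (α i) ∈ A := fun i => A.sum_mem fun q _ => hst _ _ (α i).2
  have hcard : ((Fintype.card (Γ ⧸ N) : ℕ) : K) ≠ 0 := Nat.cast_ne_zero.2 Fintype.card_ne_zero
  have htr : tr (∑ i, c i • (α i : Forms K X m)) = ∑ i, c i • tr (α i) := by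
    change ∑ q : Γ ⧸ N, act R χ m q.out (∑ i, c i • (α i : Forms K X m)) = _
    simp_rw [act_sum, act_smul]
    rw [Finset.sum_comm]
    refine Finset.sum_congr rfl fun i _ => ?_
    rw [← Finset.smul_sum]
  have htr' : tr (∑ i, c i • (α i : Forms K X m)) =
      (Fintype.card (Γ ⧸ N) : K) • ∑ i, c i • (α i : Forms K X m) := by
    change ∑ q : Γ ⧸ N, act R χ m q.out (∑ i, c i • (α i : Forms K X m)) = _
    rw [Finset.sum_congr rfl fun q _ => act_eq (hφ q.out), Finset.sum_const, Finset.card_univ,
      Nat.cast_smul_eq_nsmul]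
  have h3 : ∑ i, c i • (α i : Forms K X m) =
      (Fintype.card (Γ ⧸ N) : K)⁻¹ • ∑ i, c i • tr (α i) := by
    rw [← htr, htr', smul_smul, inv_mul_cancel₀ hcard, one_smul]
  rw [h3]
  refine Submodule.smul_mem _ _ (Submodule.sum_mem _ fun i _ => Submodule.smul_mem _ _ ?_)
  exact Submodule.subset_span ⟨htrA i, htrinv i⟩

/-- **The full Tate conjecture** from the algebraicity of all Tate classes over the closure. -/
theorem fullTate_of [CharZero K] [FiniteDimensional K X] (A : CycleClasses R χ)
    (h : ∀ m φ, IsTate R χ m φ → φ ∈ Submodule.span K (A.closed m : Set (Forms K X m))) :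
    FullTate A := by
  classical
  intro m
  obtain ⟨b, hb, hspan, hind⟩ := exists_linearIndependent K (A.closed m : Set (Forms K X m))
  have hfin : Finite b := hind.finite
  have : Fintype b := Fintype.ofFinite b
  -- the intersection numbers with the elements of b
  have hker : ∀ φ, IsTate R χ m φ → (∀ β : b, A.pairing m φ β = 0) → φ = 0 := by
    intro φ hφ h0
    have h2 : ∀ ψ ∈ Submodule.span K b, A.pairing m φ ψ = 0 := by
      intro ψ hψ
      induction hψ using Submodule.span_induction with
      | mem x hx => exact h0 ⟨x, hx⟩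
      | zero => exact map_zero _
      | add x y _ _ hx hy => rw [map_add, hx, hy, add_zero]
      | smul a x _ hx => rw [map_smul, hx, smul_zero]
    refine A.intersection.nondegenerate m φ hφ fun ψ hψ => h2 ψ ?_
    rw [hspan]
    exact h m ψ hψ
  have hclosed : ∀ β : b, (β : Forms K X m) ∈ A.closed m := fun β => hb β.2
  refine ⟨?_, ?_, ?_⟩
  · -- finite generation
    let g : Forms K X m →ₗ[ℤ] (b → K) :=
      { toFun := fun φ β => A.pairing m φ β
        map_add' := fun φ ψ => funext fun β => by rw [map_add]; rfl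
        map_smul' := fun n φ => funext fun β => by
          rw [map_zsmul]
          rfl }
    let L : Submodule ℤ (b → K) := Submodule.span ℤ (Set.range fun β : b => Pi.single β (1 : K))
    have hL : L.FG := Submodule.fg_span (Set.finite_range _)
    have hN : IsNoetherian ℤ L := isNoetherian_of_fg_of_noetherian L hL
    let M : Submodule ℤ (Forms K X m) := AddSubgroup.toIntSubmodule (A.field m)
    have hML : M.map g ≤ L := by
      rintro _ ⟨φ, hφ, rfl⟩
      have hφ' : φ ∈ A.closed m := A.galois.le m hφ
      choose n hn using fun β : b => A.intersection.integral m φ hφ' β (hclosed β)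
      have h1 : g φ = ∑ β : b, n β • Pi.single β (1 : K) := by
        funext β
        change A.pairing m φ β = _
        rw [hn β, Finset.sum_apply, Finset.sum_eq_single β]
        · rw [Pi.smul_apply, Pi.single_eq_same, zsmul_one]
        · intro β' _ hβ
          rw [Pi.smul_apply, Pi.single_eq_of_ne hβ.symm, smul_zero]
        · intro h
          exact absurd (Finset.mem_univ _) h
      rw [h1]
      exact Submodule.sum_mem _ fun β _ => Submodule.smul_mem _ _
        (Submodule.subset_span ⟨β, rfl⟩)
    have hM : M.FG := by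
      refine Submodule.fg_of_fg_map_of_fg_inf_ker g (isNoetherian_submodule.1 hN _ hML) ?_
      have h0 : M ⊓ LinearMap.ker g = ⊥ := by
        rw [eq_bot_iff]
        rintro φ ⟨hφ, hφ0⟩
        rw [Submodule.mem_bot]
        refine hker φ (A.galois.tate m φ (A.galois.le m hφ)) fun β => ?_
        exact congrArg (fun w : b → K => w β) (LinearMap.mem_ker.1 hφ0)
      rw [h0]
      exact Submodule.fg_bot
    exact (Submodule.fg_iff_addSubgroup_fg M).1 hM
  · intro φ hφ
    have hT : IsTate R χ m φ := ⟨⊤, inferInstance, fun g _ v => hφ g v⟩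
    have h1 := span_invariants (A.closed m) (A.galois.tate m) (A.galois.stable m) hφ (h m φ hT)
    refine Submodule.span_le.2 ?_ h1
    rintro α ⟨hα, hinv⟩
    obtain ⟨n, hn, hnα⟩ := A.galois.descent m α hα hinv
    have hn0 : (n : K) ≠ 0 := Nat.cast_ne_zero.2 hn.ne'
    have h2 : α = (n : K)⁻¹ • (n • α) := by
      rw [← Nat.cast_smul_eq_nsmul K, smul_smul, inv_mul_cancel₀ hn0, one_smul]
    rw [h2]
    exact Submodule.smul_mem _ _ (Submodule.subset_span hnα)
  · intro r x hx hZ
    have hQ : LinearIndependent ℚ x := (LinearIndependent.iff_fractionRing ℤ ℚ).1 hZ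
    rw [Fintype.linearIndependent_iff] at hQ ⊢
    intro c hc
    by_contra hcon
    push Not at hcon
    obtain ⟨i₀, hi₀⟩ := hcon
    obtain ⟨f, hf⟩ : ∃ f : Module.Dual ℚ K, f (c i₀) ≠ 0 := by
      by_contra h0
      push Not at h0
      exact hi₀ ((Module.forall_dual_apply_eq_zero_iff ℚ (c i₀)).1 h0)
    apply hf
    refine hQ (fun i => f (c i)) ?_ i₀
    have hT : IsTate R χ m (∑ i, f (c i) • x i) := by
      refine ⟨⊤, inferInstance, fun g _ v => ?_⟩
      rw [MultilinearMap.sum_apply, MultilinearMap.sum_apply, Finset.mul_sum]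
      refine Finset.sum_congr rfl fun i _ => ?_
      rw [MultilinearMap.smul_apply, MultilinearMap.smul_apply, A.galois.invariant m _ (hx i) g v,
        mul_smul_comm]
    refine hker _ hT fun β => ?_
    choose n hn using fun i => A.intersection.integral m (x i) (A.galois.le m (hx i)) β (hclosed β)
    have h1 : A.pairing m (∑ i, c i • x i) β = 0 := by rw [hc, map_zero, LinearMap.zero_apply]
    rw [map_sum, LinearMap.sum_apply] at h1 ⊢
    have h2 : ∀ i, A.pairing m (c i • x i) β = n i • c i := by
      intro i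
      rw [map_smul, LinearMap.smul_apply, hn i, smul_eq_mul, zsmul_eq_mul, mul_comm]
    have h3 : ∀ i, A.pairing m (f (c i) • x i) β = ((n i • f (c i) : ℚ) : K) := by
      intro i
      rw [← Rat.cast_smul_eq_qsmul K, map_smul, LinearMap.smul_apply, hn i, smul_eq_mul,
        zsmul_eq_mul]
      push_cast
      ring
    rw [Finset.sum_congr rfl fun i _ => h2 i] at h1
    rw [Finset.sum_congr rfl fun i _ => h3 i, ← Rat.cast_sum]
    have h4 := congrArg f h1
    rw [map_sum, map_zero] at h4
    simp only [map_zsmul] at h4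
    rw [h4, Rat.cast_zero]

end Pool.Agent.Y128.CV
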