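import Pool.Agent.Y128.CV.Defs

/-!
# Classes of algebraic cycles: definitions
-/

set_option autoImplicit false

namespace Pool.Agent.Y128.CV

open Module Pool.Agent.H204R3.GP Pool.Agent.H204R3.SP

variable {K X Γ : Type} [Field K] [AddCommGroup X] [Module K X] [Group Γ]

/-- The forms in `2 m` variables. -/
abbrev Forms (K X : Type) [Field K] [AddCommGroup X] [Module K X] (m : ℕ) : Type :=
  MultilinearMap K (fun _ : Fin m × Fin 2 => X) K

/-- The action of the group on the forms in `2 m` variables, twisted by the `m`-th power of the
character: `(g φ)(v) = χ(g) ^ m φ(g⁻¹ v)`. -/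
noncomputable def act (R : Representation K Γ X) (χ : Γ →* K) (m : ℕ) (g : Γ) (φ : Forms K X m) :
    Forms K X m :=
  χ g ^ m • φ.compLinearMap fun _ => R g⁻¹

/-- The form is fixed by the whole group. -/
def IsInvariant (R : Representation K Γ X) (χ : Γ →* K) (m : ℕ) (φ : Forms K X m) : Prop :=
  ∀ g v, φ (fun l => R g (v l)) = χ g ^ m * φ v

/-- The groups `closed` and `field` of the classes of algebraic cycles over the algebraic closure and
over the given field: the group acts on the first ones through finite quotients, the second ones are
invariant, and an invariant class over the closure has a multiple which is defined over the field. -/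
structure GaloisClasses (R : Representation K Γ X) (χ : Γ →* K)
    (closed field : ∀ m, AddSubgroup (Forms K X m)) : Prop where
  tate : ∀ m, ∀ α ∈ closed m, IsTate R χ m α
  stable : ∀ m g, ∀ α ∈ closed m, act R χ m g α ∈ closed m
  le : ∀ m, field m ≤ closed m
  invariant : ∀ m, ∀ α ∈ field m, IsInvariant R χ m α
  descent : ∀ m, ∀ α ∈ closed m, IsInvariant R χ m α → ∃ n : ℕ, 0 < n ∧ n • α ∈ field m

/-- The bilinear pairing given by the intersection numbers (with the transform of the second class
under the isomorphism of the spaces of forms of complementary degrees): it has integral values on the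
classes of cycles and is nondegenerate on the Tate classes (Poincaré duality and semisimplicity). -/
structure IntersectionPairing (R : Representation K Γ X) (χ : Γ →* K)
    (closed : ∀ m, AddSubgroup (Forms K X m))
    (pairing : ∀ m, Forms K X m →ₗ[K] Forms K X m →ₗ[K] K) : Prop where
  integral : ∀ m, ∀ α ∈ closed m, ∀ β ∈ closed m, ∃ n : ℤ, pairing m α β = n
  nondegenerate : ∀ m φ, IsTate R χ m φ → (∀ ψ, IsTate R χ m ψ → pairing m φ ψ = 0) → φ = 0

/-- The classes of algebraic cycles over the algebraic closure (`closed`) and over the given field
(`field`) and their intersection numbers. -/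
structure CycleClasses (R : Representation K Γ X) (χ : Γ →* K) where
  closed : ∀ m, AddSubgroup (Forms K X m)
  field : ∀ m, AddSubgroup (Forms K X m)
  pairing : ∀ m, Forms K X m →ₗ[K] Forms K X m →ₗ[K] K
  galois : GaloisClasses R χ closed field
  intersection : IntersectionPairing R χ closed pairing

/-- The full Tate conjecture: the group of the classes of cycles over the field is finitely
generated, and its tensor product with `K` is the space of the invariant forms (the classes
generate it, and classes which are linearly independent over the integers are linearly independent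
over `K`). -/
def FullTate {R : Representation K Γ X} {χ : Γ →* K} (A : CycleClasses R χ) : Prop :=
  ∀ m, (A.field m).FG ∧
    (∀ φ, IsInvariant R χ m φ → φ ∈ Submodule.span K (A.field m : Set (Forms K X m))) ∧
    ∀ (r : ℕ) (b : Fin r → Forms K X m), (∀ i, b i ∈ A.field m) → LinearIndependent ℤ b →
      LinearIndependent K b

/-- The products of bilinear Tate forms and of determinants on subspaces `E (κ q)` for families `κ`
with the property `good` are linear combinations of classes of algebraic cycles over the algebraic
closure. -/
def ProductsAreAlgebraic {I : Type} {R : Representation K Γ X} {χ : Γ →* K}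
    (A : CycleClasses R χ) (E : I → Submodule K X) (r : I → ℕ)
    (good : ∀ (Q : Type) [Fintype Q], (Q → I) → Prop) : Prop :=
  ∀ (m : ℕ) (Q : Type) (_ : Fintype Q) (κ : Q → I), good Q κ → ∀ φ : Forms K X m,
    IsProductOver R χ E r κ φ → φ ∈ Submodule.span K (A.closed m : Set (Forms K X m))

end Pool.Agent.Y128.CV
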