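import Pool.Agent.Y128.CY.Stm

/-!
# Products of Jacobians of cyclic coverings of the projective line: definitions

`K` is the algebraic closure of the coefficient field `k` (`ℚ_ℓ`). `Γ` is the Galois group of a number
field which contains the necessary roots of unity.
-/

set_option autoImplicit false

namespace Pool.Agent.Y128.CV

open Module TensorProduct Polynomial Pool.Agent.H204R3.GP Pool.Agent.H204R3.SP
  Pool.Agent.W522.U Pool.Agent.Y128.SJ
open Pool.Agent.Y128.CY (evn)

/-- The data of a cyclic covering `y ^ n = ∏ (x - a_t) ^ (m_t)` of the projective line (with a further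
factor for the point at infinity, if it is a branch point): the degree `n ≥ 3`, the number of
branch points, three (then the Jacobian is a factor of the Jacobian of the Fermat curve of degree
`n`) or at least five, and the exponents `m_t`, nonzero residues modulo `n` with sum zero. -/
structure Covering where
  degree : ℕ
  branchPoints : ℕ
  exponent : Fin branchPoints → ZMod degree
  three_le : 3 ≤ degree
  points : branchPoints = 3 ∨ 5 ≤ branchPoints
  ne_zero : ∀ t, exponent t ≠ 0
  sum_zero : ∑ t, exponent t = 0

/-- The dimension of the eigenspaces of the automorphism for primitive roots of unity. -/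
def Covering.rank (C : Covering) : ℕ := C.branchPoints - 2

/-- The representative of `x` between `0` and `n - 1`, divided by `n`. -/
def frac {n : ℕ} (x : ZMod n) : ℚ := x.val / n

/-- The Hodge number `∑ ⟨s m_t / n⟩ - 1` of the eigenspace with the number `s` (Hurwitz, Chevalley,
Weil). -/
def Covering.hodge (C : Covering) (s : ZMod C.degree) : ℚ := ∑ t, frac (s * C.exponent t) - 1

section one

variable {k V Γ : Type} [Field k] [AddCommGroup V] [Module k V] [Group Γ]

/-- Properties of the rational Tate module `V` of the primitive part (on which the automorphism acts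
with primitive `n`-th roots of unity as eigenvalues) of the Jacobian of a cyclic covering of the
line with the data `C`, with the Galois action `ρ`, the cyclotomic character `χ`, the Weil pairing
`ω` and the automorphism `σ`; `ρ` is semisimple on all subgroups of finite index (Faltings). -/
structure TateModule (C : Covering) (ρ : Representation k Γ V) (χ : Γ →* k)
    (ω : V →ₗ[k] V →ₗ[k] k) (σ : Module.End k V) : Prop where
  pairing : WeilPairing ρ χ ω σ
  comm : ∀ s, ρ s * σ = σ * ρ s
  cyclotomic : aeval σ (cyclotomic C.degree k) = 0
  dim : ∀ z, IsPrimitiveRoot z C.degree → finrank (AlgebraicClosure k) (eig σ z) = C.rank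
  semisimple : FiniteIndexSemisimple ρ

end one

section generic

variable {K X Γ I P Q : Type} [Field K] [AddCommGroup X] [Module K X] [Group Γ]

/-- The product of the values of the bilinear forms `B p`. -/
def pairProduct [Fintype P] (B : P → X →ₗ[K] X →ₗ[K] K) (w : P × Fin 2 → X) : K :=
  ∏ p, B p (w (p, 0)) (w (p, 1))

/-- `δ` is the determinant of the matrix of the `B s (v s) (f s')` for bilinear Tate forms `B s` and
vectors `f s'` of the subspace `U`: a determinant on `U`, composed with maps to `U`. -/
def IsDeterminant (R : Representation K Γ X) (χ : Γ →* K) (U : Submodule K X) {n : ℕ}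
    (δ : (Fin n → X) → K) : Prop :=
  ∃ (B : Fin n → X →ₗ[K] X →ₗ[K] K) (f : Fin n → U), (∀ s, IsTate2 R χ (B s)) ∧
    ∀ v, δ v = Matrix.det (Matrix.of fun s s' => B s (v s) (f s'))

/-- `φ` is a product of bilinear Tate forms and of determinants, one in `r i` variables on the
subspace `E i` for every `i = κ q`. -/
def IsProductOver [Fintype Q] (R : Representation K Γ X) (χ : Γ →* K) (E : I → Submodule K X)
    (r : I → ℕ) (κ : Q → I) {m : ℕ}
    (φ : MultilinearMap K (fun _ : Fin m × Fin 2 => X) K) : Prop :=
  ∃ (P : Type) (_ : Fintype P) (e : (P × Fin 2) ⊕ (Σ q, Fin (r (κ q))) ≃ Fin m × Fin 2)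
    (B : P → X →ₗ[K] X →ₗ[K] K) (δ : ∀ q, (Fin (r (κ q)) → X) → K),
    (∀ p, IsTate2 R χ (B p)) ∧ (∀ q, IsDeterminant R χ (E (κ q)) (δ q)) ∧
    ∀ v, φ v = pairProduct B (fun x => v (e (Sum.inl x))) *
      ∏ q, δ q fun s => v (e (Sum.inr ⟨q, s⟩))

/-- All Tate forms are linear combinations of products of bilinear Tate forms and of determinants on
subspaces `E (κ q)` for families `κ` with the property `good`. -/
def TateGeneratedBy (R : Representation K Γ X) (χ : Γ →* K) (E : I → Submodule K X)
    (r : I → ℕ) (good : ∀ (Q : Type) [Fintype Q], (Q → I) → Prop) : Prop :=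
  ∀ (m : ℕ) (φ : MultilinearMap K (fun _ : Fin m × Fin 2 => X) K), IsTate R χ m φ →
    φ ∈ Submodule.span K {ψ | ∃ (Q : Type) (_ : Fintype Q) (κ : Q → I), good Q κ ∧
      IsProductOver R χ E r κ ψ}

end generic

section family

variable {k : Type} [Field k] {Γ : Type} [Group Γ] {ι : Type} [Fintype ι] [DecidableEq ι]
  {V : ι → Type} [∀ c, AddCommGroup (V c)] [∀ c, Module k (V c)]

/-- The least common multiple of the degrees. -/
def level (C : ι → Covering) : ℕ := Finset.univ.lcm fun c => (C c).degree

/-- For every factor with at least five branch points there is a (Frobenius) element which is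
semisimple on all factors (Weil) and has two eigenvalues in each eigenspace of `σ c` whose quotient is
not a root of unity. -/
def HasFrobenius (C : ι → Covering) (ρ : ∀ c, Representation k Γ (V c))
    (σ : ∀ c, Module.End k (V c)) : Prop :=
  ∀ c, 5 ≤ (C c).branchPoints → ∃ F : Γ, (∀ c', Module.End.IsSemisimple (ρ c' F)) ∧
    ∀ z, IsPrimitiveRoot z (C c).degree →
      ∃ u ∈ eig (σ c) z, ∃ v ∈ eig (σ c) z, u ≠ 0 ∧ v ≠ 0 ∧ ∃ a b : AlgebraicClosure k,
        ext (ρ c F) u = a • u ∧ ext (ρ c F) v = b • v ∧ ∀ m : ℕ, 0 < m → a ^ m ≠ b ^ m

/-- There is a (Frobenius) element `γ`, of a place over a prime `q` congruent to one modulo the degrees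
with `q ^ a` elements in the residue field, whose determinant on the eigenspace of `σ c` for each `z`
is `D_c(z)`, where `D_c` is a polynomial with rational coefficients, and the valuations of the
`D_c(w_c ^ s)`, `w_c` a root of unity of order `degree` in `ℚ_q`, are `a` times the Hodge numbers of the
eigenspaces (the Newton polygon and the Hodge polygon have the same end point). -/
def HasHodgeNumbers [CharZero k] (C : ι → Covering) (ρ : ∀ c, Representation k Γ (V c))
    (χ : Γ →* k) (σ : ∀ c, Module.End k (V c)) : Prop :=
  ∃ (q a : ℕ) (_ : Fact q.Prime) (γ : Γ) (D : ι → ℚ[X]) (w : ℚ_[q]), 0 < a ∧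
    χ γ = (q : k) ^ a ∧ IsPrimitiveRoot w (level C) ∧
    (∀ c, HasDeterminant (C c).degree (ρ c γ) (σ c) (D c)) ∧
    ∀ c, ∀ s : ℕ, s.Coprime (C c).degree →
      ((aeval ((w ^ (level C / (C c).degree)) ^ s) (D c)).valuation : ℚ) = a * (C c).hodge s

/-- For every factor with at least five branch points there is an (inertia) element which acts on it as
a reflection and trivially on the other factors. -/
def HasReflections (C : ι → Covering) (ρ : ∀ c, Representation k Γ (V c))
    (σ : ∀ c, Module.End k (V c)) : Prop :=
  ∀ c, 5 ≤ (C c).branchPoints →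
    ∃ g : Γ, CY.IsReflection (C c).degree (σ c) (ρ c g) ∧ ∀ c' ≠ c, ρ c' g = 1

/-- For every factor with at least five branch points the only operators that commute with a subgroup
of finite index are the polynomials in `σ c`: the ring of endomorphisms is generated by the
automorphism (Faltings). -/
def HasSmallEndomorphismRings (C : ι → Covering) (ρ : ∀ c, Representation k Γ (V c))
    (σ : ∀ c, Module.End k (V c)) : Prop :=
  ∀ c, 5 ≤ (C c).branchPoints → EndomorphismsGeneratedBy (ρ c) (σ c)

/-- The rational Tate module of the product of the factors, over the algebraic closure. -/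
abbrev Total (k : Type) [Field k] {ι : Type} (V : ι → Type) [∀ c, AddCommGroup (V c)]
    [∀ c, Module k (V c)] : Type :=
  ∀ c, AlgebraicClosure k ⊗[k] V c

/-- The action of the Galois group on the product. -/
noncomputable def rep (ρ : ∀ c, Representation k Γ (V c)) :
    Representation (AlgebraicClosure k) Γ (Total k V) :=
  piRep fun c => bcr (ρ c) (AlgebraicClosure k)

/-- The cyclotomic character with values in the closure. -/
noncomputable def chi (χ : Γ →* k) : Γ →* AlgebraicClosure k := bcc χ (AlgebraicClosure k)

/-- The eigenspace of `σ c` for `z` in the product. -/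
noncomputable def eigIn (σ : ∀ c, Module.End k (V c)) (c : ι) (z : AlgebraicClosure k) :
    Submodule (AlgebraicClosure k) (Total k V) :=
  (eig (σ c) z).map (LinearMap.single (AlgebraicClosure k) (fun c => AlgebraicClosure k ⊗[k] V c) c)

/-- The family of residues `i_q m_t` is a Hodge character: for all `s` prime to the degrees the
representatives between zero and the degree of the `s i_q m_t`, divided by the degree, have
the average `1 / 2`. This is the condition of Shioda and Katsura for the corresponding
eigenspace of the cohomology of the Fermat variety (of degree `level C` and dimension the number of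
residues minus two) to consist of Hodge classes. -/
def IsHodgeCharacter (C : ι → Covering) {Q : Type} [Fintype Q]
    (κ : Q → Σ c, (ZMod (C c).degree)ˣ) : Prop :=
  ∀ s : ℕ, s.Coprime (level C) →
    ∑ q, ∑ t, frac ((s : ZMod (C (κ q).1).degree) * ((κ q).2 : ZMod (C (κ q).1).degree) *
      (C (κ q).1).exponent t) = (∑ q, ((C (κ q).1).branchPoints : ℚ)) / 2

/-- All residues `i_q m_t` of a family of coverings of degree `p` are paired: `u` occurs as often as
`p - u`. -/
def IsPaired (C : ι → Covering) (p : ℕ) {Q : Type} [Fintype Q]
    (κ : Q → Σ c, (ZMod (C c).degree)ˣ) : Prop :=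
  ∀ u : ℕ, 0 < u → u < p →
    Nat.card {x : Σ q : Q, Fin (C (κ q).1).branchPoints //
      (((κ x.1).2 : ZMod (C (κ x.1).1).degree) * (C (κ x.1).1).exponent x.2).val = u} =
    Nat.card {x : Σ q : Q, Fin (C (κ q).1).branchPoints //
      (((κ x.1).2 : ZMod (C (κ x.1).1).degree) * (C (κ x.1).1).exponent x.2).val = p - u}

/-- `κ` is a Hodge character and, if all degrees are equal to a prime number `p`, its residues are
paired. -/
def IsFermat (C : ι → Covering) {Q : Type} [Fintype Q]
    (κ : Q → Σ c, (ZMod (C c).degree)ˣ) : Prop :=
  IsHodgeCharacter C κ ∧ ∀ p : ℕ, p.Prime → (∀ c, (C c).degree = p) → IsPaired C p κ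

/-- `z` is a primitive root of unity of order `level C`; `eigAt C σ z i`, `i = (c, j)`, is the eigenspace
of `σ c` in the total space for the primitive root of unity `(z ^ (level C / degree)) ^ j`. -/
noncomputable def eigAt (C : ι → Covering) (σ : ∀ c, Module.End k (V c)) (z : AlgebraicClosure k)
    (i : Σ c, (ZMod (C c).degree)ˣ) : Submodule (AlgebraicClosure k) (Total k V) :=
  eigIn σ i.1 (evn (z ^ (level C / (C i.1).degree)) i.2)

/-- The standard properties of a family of Jacobians of cyclic coverings with small endomorphism
rings and reflections. -/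
structure CyclicCoverings [CharZero k] (C : ι → Covering) (ρ : ∀ c, Representation k Γ (V c))
    (χ : Γ →* k) (ω : ∀ c, V c →ₗ[k] V c →ₗ[k] k) (σ : ∀ c, Module.End k (V c)) : Prop where
  tate : ∀ c, TateModule (C c) (ρ c) χ (ω c) (σ c)
  endomorphisms : HasSmallEndomorphismRings C ρ σ
  frobenius : HasFrobenius C ρ σ
  hodge : HasHodgeNumbers C ρ χ σ
  reflections : HasReflections C ρ σ

/-- All Tate classes on the product are linear combinations of products of classes of degree two and
determinants on eigenspaces whose residues form a Hodge character (paired if the degrees are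
prime). -/
def TateClassesAreFermat (C : ι → Covering) (ρ : ∀ c, Representation k Γ (V c)) (χ : Γ →* k)
    (σ : ∀ c, Module.End k (V c)) (z : AlgebraicClosure k) : Prop :=
  TateGeneratedBy (rep ρ) (chi χ) (eigAt C σ z) (fun i => (C i.1).rank)
    fun Q _ κ => IsFermat C (Q := Q) κ

end family

end Pool.Agent.Y128.CV
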