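import Pool.Agent.Y128.CV.Main

/-!
# Tate classes on products of Jacobians of cyclic coverings
-/

set_option autoImplicit false
set_option linter.unusedSectionVars false

namespace Pool.Agent.Y128.CV

open Module TensorProduct Polynomial Pool.Agent.H204R3.GP Pool.Agent.H204R3.SP
  Pool.Agent.W522.U Pool.Agent.Y128.SJ Pool.Agent.TH118.CR Pool.Agent.TH118.WC
  Pool.Agent.TH118.IS
open Pool.Agent.Y128.CY (evn S_EIG S_REF S_PAIR)

noncomputable section

variable {k : Type} [Field k] [CharZero k] {Γ : Type} [Group Γ] {ι : Type} [Fintype ι]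
  [DecidableEq ι] {V : ι → Type} [∀ c, AddCommGroup (V c)] [∀ c, Module k (V c)]
  [∀ c, FiniteDimensional k (V c)] {C : ι → Covering} {ρ : ∀ c, Representation k Γ (V c)}
  {χ : Γ →* k} {ω : ∀ c, V c →ₗ[k] V c →ₗ[k] k} {σ : ∀ c, Module.End k (V c)}

/-- The determinant on the image of a subspace. -/
theorem det_map {F X Y : Type} [Field F] [AddCommGroup X] [Module F X] [AddCommGroup Y]
    [Module F Y] (i : Y →ₗ[F] X) (hi : Function.Injective i) (f : Module.End F X)
    (g : Module.End F Y) (hfg : ∀ y, f (i y) = i (g y)) (U : Submodule F Y)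
    (h : ∀ u ∈ U.map i, f u ∈ U.map i) (h' : ∀ u ∈ U, g u ∈ U) :
    LinearMap.det (f.restrict h) = LinearMap.det (g.restrict h') := by
  let e := Submodule.equivMapOfInjective i hi U
  rw [← LinearMap.det_conj (g.restrict h') e]
  congr 1
  apply LinearMap.ext
  intro x
  obtain ⟨y, rfl⟩ := e.surjective x
  apply Subtype.ext
  rw [LinearMap.comp_apply, LinearMap.comp_apply, LinearEquiv.coe_coe, LinearEquiv.coe_coe,
    LinearEquiv.symm_apply_apply]
  exact hfg (y : Y)

/-- The determinants which are powers of the cyclotomic character belong to Hodge characters. -/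
theorem hodge_abs (hNUM : Nm.S_NUM) (hV : ∀ c, TateModule (C c) (ρ c) χ (ω c) (σ c))
    (hH : HasHodgeNumbers C ρ χ σ) {z : AlgebraicClosure k} (hz : IsPrimitiveRoot z (level C))
    {X : Type} [AddCommGroup X] [Module (AlgebraicClosure k) X] [FiniteDimensional (AlgebraicClosure k) X] {R : Representation (AlgebraicClosure k) Γ X}
    {E : (Σ c, (ZMod (C c).degree)ˣ) → Submodule (AlgebraicClosure k) X}
    (hfin : ∀ i, finrank (AlgebraicClosure k) (E i) = (C i.1).rank) (hst : ∀ i g, ∀ u ∈ E i, R g u ∈ E i)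
    (hdetE : ∀ i g (h : ∀ u ∈ E i, R g u ∈ E i), LinearMap.det ((R g).restrict h) =
      detOn (ext (ρ i.1 g)) (eig (σ i.1) (evn (z ^ (level C / (C i.1).degree)) i.2))
        (eig_stable (AlgebraicClosure k) (hV i.1).comm _ g))
    {Q : Type} [Fintype Q] (κ : Q → Σ c, (ZMod (C c).degree)ˣ) {d : ℕ} {Δ : Subgroup Γ}
    (h : ∀ q, ∀ g ∈ Δ, ∀ u ∈ E (κ q), R g u ∈ E (κ q))
    (hΔ : Δ.FiniteIndex) (hd : 2 * d = ∑ q, finrank (AlgebraicClosure k) (E (κ q)))
    (hdet : ∀ (g : Γ) (hg : g ∈ Δ), ∏ q, LinearMap.det ((R g).restrict (h q g hg)) =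
      chi χ g ^ d) : IsHodgeCharacter C κ := by
  classical
  obtain ⟨q, a, hq, γ, D, w, ha, hχ, hw, hD, hval⟩ := hH
  obtain ⟨N, hN0, -, hN⟩ := Subgroup.exists_pow_mem_of_index_ne_zero hΔ.index_ne_zero γ
  have h1 := hdet _ hN
  have h2 : ∀ x, LinearMap.det ((R (γ ^ N)).restrict (h x _ hN)) =
      (aeval (evn (z ^ (level C / (C (κ x).1).degree)) (κ x).2) (D (κ x).1)) ^ N := by
    intro x
    rw [det_pow γ (hst (κ x) γ) N (h x _ hN), hdetE]
    congr 1
    exact hD _ _ (evn_prim (prim_root hz (κ x).1) (κ x).2) _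
  rw [Finset.prod_congr rfl fun x _ => h2 x, chi, bcc_apply, map_pow, hχ, map_pow, map_pow,
    map_natCast, ← pow_mul, ← pow_mul, ← mul_assoc] at h1
  refine hNUM (AlgebraicClosure k) ι C q a N d w z D ha hN0 hw hz hval Q κ h1 ?_
  rw [hd]
  exact Finset.sum_congr rfl fun x _ => hfin (κ x)

theorem det_at (hV : ∀ c, TateModule (C c) (ρ c) χ (ω c) (σ c)) {z : AlgebraicClosure k}
    (i : Σ c, (ZMod (C c).degree)ˣ) (g : Γ)
    (h : ∀ u ∈ eigAt C σ z i, rep ρ g u ∈ eigAt C σ z i) :
    detOn (rep ρ g) (eigAt C σ z i) h =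
      detOn (ext (ρ i.1 g)) (eig (σ i.1) (evn (z ^ (level C / (C i.1).degree)) i.2))
        (eig_stable (AlgebraicClosure k) (hV i.1).comm _ g) :=
  det_map (inc i.1) (inc_inj i.1) (rep ρ g) (bcr (ρ i.1) (AlgebraicClosure k) g) (fun y => rep_inc g i.1 y) _ h
    (eig_stable (AlgebraicClosure k) (hV i.1).comm _ g)

/-- An endomorphism of a line is the multiplication by its determinant. -/
theorem det_line {F X : Type} [Field F] [AddCommGroup X] [Module F X] (h : finrank F X = 1)
    (f : Module.End F X) (x : X) : f x = LinearMap.det f • x := by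
  obtain ⟨c, hc, -⟩ := LinearMap.existsUnique_eq_smul_id_of_finrank_eq_one h f
  have h1 : f = c • (LinearMap.id : X →ₗ[F] X) := hc
  rw [h1, LinearMap.det_smul, h, pow_one, LinearMap.det_id, mul_one]
  rfl

/-- The square of the determinant on a line which is dual to itself. -/
theorem line_abs {F X G : Type} [Field F] [AddCommGroup X] [Module F X] [Group G]
    {R : Representation F G X} {ψ : G →* F} {U : Submodule F X} (h1 : finrank F U = 1)
    (hst : ∀ g, ∀ u ∈ U, R g u ∈ U) (h : Du R ψ U U) :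
    ∃ Δ : Subgroup G, Δ.FiniteIndex ∧ ∀ g ∈ Δ,
      LinearMap.det ((R g).restrict (hst g)) * LinearMap.det ((R g).restrict (hst g)) = ψ g := by
  obtain ⟨Δ, hΔ, B, ⟨u, hu, v, hv, huv⟩, hB⟩ := h
  refine ⟨Δ, hΔ, fun g hg => ?_⟩
  have hline : ∀ x ∈ U, R g x = LinearMap.det ((R g).restrict (hst g)) • x := by
    intro x hx
    exact congrArg Subtype.val (det_line h1 ((R g).restrict (hst g)) ⟨x, hx⟩)
  have h4 := hB g hg u hu v hv
  rw [hline u hu, hline v hv, map_smul, map_smul, LinearMap.smul_apply, smul_eq_mul,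
    smul_eq_mul, ← mul_assoc] at h4
  exact mul_right_cancel₀ huv h4

/-- The sum of the representatives of residues with sum zero is an integer. -/
theorem sum_frac {n : ℕ} [NeZero n] {T : Type} [Fintype T] (x : T → ZMod n)
    (h : ∑ t, x t = 0) : ∃ a : ℕ, ∑ t, frac (x t) = a := by
  have h1 : ((∑ t, (x t).val : ℕ) : ZMod n) = 0 := by
    push_cast
    rw [← h]
    exact Finset.sum_congr rfl fun t _ => ZMod.natCast_zmod_val (x t)
  obtain ⟨a, ha⟩ := (ZMod.natCast_eq_zero_iff _ n).1 h1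
  refine ⟨a, ?_⟩
  have hn : (n : ℚ) ≠ 0 := Nat.cast_ne_zero.2 (NeZero.ne n)
  have h2 : ((∑ t, (x t).val : ℕ) : ℚ) = (n * a : ℕ) := by rw [ha]
  push_cast at h2
  calc ∑ t, frac (x t) = (∑ t, ((x t).val : ℚ)) / n := by
        rw [Finset.sum_div]
        rfl
    _ = a := by
        rw [h2]
        field_simp

/-- The lines are not dual to themselves. -/
theorem not_self_dual (hNUM : Nm.S_NUM) (hV : ∀ c, TateModule (C c) (ρ c) χ (ω c) (σ c))
    (hH : HasHodgeNumbers C ρ χ σ) {z : AlgebraicClosure k} (hz : IsPrimitiveRoot z (level C))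
    (i : Σ c, (ZMod (C c).degree)ˣ) (hi : ¬5 ≤ (C i.1).branchPoints) :
    ¬Du (rep ρ) (chi χ) (eigAt C σ z i) (eigAt C σ z i) := by
  classical
  intro hdu
  have h3 : (C i.1).branchPoints = 3 := (C i.1).points.resolve_right hi
  have hrk : finrank (AlgebraicClosure k) (eigAt C σ z i) = 1 := by rw [eig_rank hV hz, Covering.rank, h3]
  have hst := eigAt_stable hV (z := z) i
  obtain ⟨Δ, hΔ, hdet⟩ := line_abs hrk hst hdu
  have hch : IsHodgeCharacter C (fun _ : Fin 2 => i) := by
    refine hodge_abs hNUM hV hH hz (X := Total k V) (R := rep ρ) (E := eigAt C σ z)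
      (eig_rank hV hz) (eigAt_stable hV) (det_at hV) (fun _ : Fin 2 => i) (d := 1)
      (fun _ g _ => hst g) hΔ ?_ ?_
    · rw [Fin.sum_univ_two, hrk]
    · intro g hg
      rw [Fin.prod_univ_two, pow_one]
      exact hdet g hg
  have h5 := hch 1 (Nat.coprime_one_left _)
  have h6 : ∑ t, ((i.2 : ZMod (C i.1).degree) * (C i.1).exponent t) = 0 := by
    rw [← Finset.mul_sum, (C i.1).sum_zero, mul_zero]
  obtain ⟨a, ha⟩ := sum_frac _ h6
  simp only [Nat.cast_one, one_mul, Fin.sum_univ_two] at h5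
  rw [ha, h3] at h5
  have h7 : (2 : ℚ) * (a + a) = 2 * 3 := by
    rw [h5]
    norm_num
  have h8 : 2 * (a + a) = 2 * 3 := by exact_mod_cast h7
  omega

theorem frac_mul {n : ℕ} [NeZero n] (s : ℕ) (x : ZMod n) :
    frac ((s : ZMod n) * x) = ((s * x.val % n : ℕ) : ℚ) / n := by
  rw [frac, ZMod.val_mul, ZMod.val_natCast, Nat.mod_mul_mod]

theorem frac_mul' {n p : ℕ} [NeZero n] (h : n = p) (s : ℕ) (x : ZMod n) :
    frac ((s : ZMod n) * x) = ((s * x.val % p : ℕ) : ℚ) / p := by
  subst h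
  exact frac_mul s x

/-- Hodge characters of prime degree are paired. -/
theorem paired (hPAIR : S_PAIR) {p : ℕ} [hp : Fact p.Prime] (hC : ∀ c, (C c).degree = p)
    {Q : Type} [Fintype Q] {κ : Q → Σ c, (ZMod (C c).degree)ˣ} (hκ : IsHodgeCharacter C κ) :
    IsPaired C p κ := by
  classical
  intro u hu hup
  have h := hPAIR p (Σ q : Q, Fin (C (κ q).1).branchPoints)
    (fun x => (((κ x.1).2 : ZMod (C (κ x.1).1).degree) * (C (κ x.1).1).exponent x.2).val)
    (fun x => ?_) (fun s hs => ?_) u hu hup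
  · exact h
  · constructor
    · rw [Nat.pos_iff_ne_zero]
      intro h0
      have h1 := (ZMod.val_eq_zero _).1 h0
      have h2 : (C (κ x.1).1).exponent x.2 = 0 := (Units.mul_right_eq_zero _).1 h1
      exact (C (κ x.1).1).ne_zero _ h2
    · exact (ZMod.val_lt _).trans_le (hC _).le
  · have hlev : s.Coprime (level C) := by
      have h1 : level C ∣ p := Finset.lcm_dvd fun c _ => (hC c).dvd
      exact Nat.Coprime.coprime_dvd_right h1 hs
    have h1 := hκ s hlev
    rw [Fintype.sum_sigma]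
    have h2 : ((Fintype.card (Σ q : Q, Fin (C (κ q).1).branchPoints) : ℕ) : ℚ) =
        ∑ q, ((C (κ q).1).branchPoints : ℚ) := by
      rw [Fintype.card_sigma]
      push_cast
      exact Finset.sum_congr rfl fun q _ => by rw [Fintype.card_fin]
    rw [h2, ← h1]
    refine Finset.sum_congr rfl fun q _ => Finset.sum_congr rfl fun t _ => ?_
    rw [mul_assoc, frac_mul' (hC _)]

/-- **Tate classes on products of Jacobians of cyclic coverings.** -/
theorem main (hEIG : S_EIG) (hREF : S_REF) (hNUM : Nm.S_NUM) (hPAIR : S_PAIR)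
    (h : CyclicCoverings C ρ χ ω σ) {z : AlgebraicClosure k} (hz : IsPrimitiveRoot z (level C)) :
    TateClassesAreFermat C ρ χ σ z := by
  classical
  intro m φ hφ
  obtain ⟨hV, hend, hF, hH, hr⟩ := h
  have hE := irr_sum hEIG hV hend hz
  have hss := has_proj hEIG hV hend hz
  have htop : ⨆ i, blk C σ z i = ⊤ := by
    rw [eq_top_iff, ← hE.2]
    exact iSup_mono eig_le_blk
  have h1 := refl_det_line (big := fun i => 5 ≤ (C i.1).branchPoints) (F := blk C σ z) (om ω)
    (fun u hu => om_left hV hu) (om_rep hV) hss hE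
    (fun i hi => by
      rw [eig_rank hV hz, Covering.rank]
      omega)
    (fun i hi => by
      rw [eig_rank hV hz, Covering.rank, (C i.1).points.resolve_right hi])
    htop (fun i => ⟨⊤, inferInstance, fun g _ => blk_stable hV i g⟩) (blk_rank hV hz)
    (fun i hi => if_pos hi) (has_refl hEIG hREF hV hend hr hz) (has_frob hF hz)
    (not_self_dual hNUM hV hH hz) φ hφ
  refine detProd_transport hss hE _ ?_ φ h1
  rintro ψ P Q hP hQ κ N f e B B' hB hB' ⟨d, Δ, h, hΔ, hd, hdet⟩ hψ
  have hch : IsHodgeCharacter C κ := hodge_abs hNUM hV hH hz (X := Total k V) (R := rep ρ)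
    (E := eigAt C σ z) (eig_rank hV hz) (eigAt_stable hV) (det_at hV) κ h hΔ hd hdet
  obtain rfl : N = fun q => (C (κ q).1).rank := funext fun q => by
    rw [← eig_rank hV hz (κ q), finrank_eq_card_basis (f q), Fintype.card_fin]
  refine ⟨Q, hQ, κ, ⟨hch, fun p hp hC => ?_⟩, P, hP, e, B, fun q w => Matrix.det (Matrix.of
    fun s s' => B' q s (w s) (f q s' : Total k V)), hB, fun q => ⟨B' q, fun s => f q s, hB' q,
      fun v => rfl⟩, hψ⟩
  have := Fact.mk hp
  exact paired hPAIR hC hch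

end

end Pool.Agent.Y128.CV
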