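import Pool.Agent.Y128.CV.Defs

/-!
# Products of cyclic coverings over fields of any characteristic: definitions
-/

set_option autoImplicit false

namespace Pool.Agent.Y128.CV

open Module TensorProduct Polynomial Pool.Agent.H204R3.GP Pool.Agent.H204R3.SP
  Pool.Agent.W522.U Pool.Agent.Y128.SJ
open Pool.Agent.Y128.CY (evn)

noncomputable section

variable {k : Type} [Field k] [CharZero k] {Γ : Type} [Group Γ] {ι : Type} [Fintype ι]
  [DecidableEq ι] {V : ι → Type} [∀ c, AddCommGroup (V c)] [∀ c, Module k (V c)]

/-- The average over the powers of `q` of the Hodge numbers of the eigenspaces with the numbers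
`s q ^ i`, `i < f`: the slope of the eigenspace at a place over `q`, if `q ^ f` is one modulo
the degree. -/
def Covering.slope (C : Covering) (q f : ℕ) (s : ZMod C.degree) : ℚ :=
  (∑ i ∈ Finset.range f, C.hodge (s * (q : ZMod C.degree) ^ i)) / f

/-- There is a (Frobenius) element `γ`, of a place over the prime `q` with `q ^ a` elements in the
residue field, whose determinant on the eigenspace of `σ c` for each `z` is `D_c(z)`, where `D_c` is a
polynomial with rational coefficients, and the valuations `v`, `v(q) = 1`, of the `D_c(w_c ^ s)`,
`w_c` a root of unity of order `degree`, are `a` times the slopes of the eigenspaces. -/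
def HasSlopes (q f : ℕ) (C : ι → Covering) (ρ : ∀ c, Representation k Γ (V c))
    (χ : Γ →* k) (σ : ∀ c, Module.End k (V c)) : Prop :=
  ∃ (a : ℕ) (γ : Γ) (D : ι → ℚ[X]) (F : Type) (_ : Field F) (_ : CharZero F)
    (v : AddValuation F (WithTop ℚ)) (w : F), 0 < a ∧ χ γ = (q : k) ^ a ∧
    IsPrimitiveRoot w (level C) ∧ v (q : F) = 1 ∧
    (∀ c, HasDeterminant (C c).degree (ρ c γ) (σ c) (D c)) ∧
    ∀ c, ∀ s : ℕ, s.Coprime (C c).degree →
      v (aeval ((w ^ (level C / (C c).degree)) ^ s) (D c)) =
        ((a * (C c).slope q f s : ℚ) : WithTop ℚ)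

/-- The sum over `i < f` and all `t` of the representatives of the `s j q ^ i m_t` between zero and the
degree, divided by the degree. -/
def Covering.total (C : Covering) (q f s : ℕ) (j : (ZMod C.degree)ˣ) : ℚ :=
  ∑ i ∈ Finset.range f, ∑ t, frac ((s : ZMod C.degree) * (j : ZMod C.degree) *
    (q : ZMod C.degree) ^ i * C.exponent t)

/-- The condition of Shioda and Katsura for the family of residues `i_x m_t` to belong to Tate classes
on the Fermat variety of degree `level C` over fields of characteristic `q`: for all `s` prime
to the degrees the representatives between zero and the degree of the `s i_x q ^ i m_t`, `i < f`,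
divided by the degree, have the average `1 / 2`. -/
def IsTateCharacter (q f : ℕ) (C : ι → Covering) {Q : Type} [Fintype Q]
    (κ : Q → Σ c, (ZMod (C c).degree)ˣ) : Prop :=
  ∀ s : ℕ, s.Coprime (level C) →
    ∑ x, (C (κ x).1).total q f s (κ x).2 = f * (∑ x, ((C (κ x).1).branchPoints : ℚ)) / 2

/-- The standard properties of a family of Jacobians of cyclic coverings with small endomorphism
rings and reflections, over a field with a place over `q`. No eigenspace of a factor with
three branch points is supersingular (on average). -/
structure CyclicCoveringsAt (q f : ℕ) (C : ι → Covering) (ρ : ∀ c, Representation k Γ (V c))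
    (χ : Γ →* k) (ω : ∀ c, V c →ₗ[k] V c →ₗ[k] k) (σ : ∀ c, Module.End k (V c)) : Prop where
  tate : ∀ c, TateModule (C c) (ρ c) χ (ω c) (σ c)
  endomorphisms : HasSmallEndomorphismRings C ρ σ
  frobenius : HasFrobenius C ρ σ
  slopes : HasSlopes q f C ρ χ σ
  reflections : HasReflections C ρ σ
  three : ∀ i : Σ c, (ZMod (C c).degree)ˣ, (C i.1).branchPoints = 3 →
    ¬IsTateCharacter q f C fun _ : Fin 2 => i

/-- All Tate classes on the product are linear combinations of products of classes of degree two and
determinants on eigenspaces whose residues satisfy the condition of Shioda and Katsura. -/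
def TateClassesAreFermatAt (q f : ℕ) (C : ι → Covering) (ρ : ∀ c, Representation k Γ (V c))
    (χ : Γ →* k) (σ : ∀ c, Module.End k (V c)) (z : AlgebraicClosure k) : Prop :=
  TateGeneratedBy (rep ρ) (chi χ) (eigAt C σ z) (fun i => (C i.1).rank)
    fun Q _ κ => IsTateCharacter q f C (Q := Q) κ

end

end Pool.Agent.Y128.CV
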