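import Pool.Agent.Y128.CV.Fin
import Pool.Agent.Y128.CV.SlopeDefs

/-!
# Products of cyclic coverings over fields of any characteristic
-/

set_option autoImplicit false
set_option linter.unusedSectionVars false

namespace Pool.Agent.Y128.CV

open Module TensorProduct Polynomial Pool.Agent.H204R3.GP Pool.Agent.H204R3.SP
  Pool.Agent.W522.U Pool.Agent.Y128.SJ Pool.Agent.TH118.CR Pool.Agent.TH118.WC
  Pool.Agent.TH118.IS
open Pool.Agent.Y128.CY (evn S_EIG S_REF S_PAIR)

noncomputable section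

variable {k : Type} [Field k] [CharZero k] {Γ : Type} [Group Γ] {ι : Type} [Fintype ι]
  [DecidableEq ι] {V : ι → Type} [∀ c, AddCommGroup (V c)] [∀ c, Module k (V c)]
  [∀ c, FiniteDimensional k (V c)] {C : ι → Covering} {ρ : ∀ c, Representation k Γ (V c)}
  {χ : Γ →* k} {ω : ∀ c, V c →ₗ[k] V c →ₗ[k] k} {σ : ∀ c, Module.End k (V c)}

theorem v_prod {F Q : Type} [Field F] [Fintype Q] (v : AddValuation F (WithTop ℚ))
    (f : Q → F) (r : Q → ℚ) (h : ∀ x, v (f x) = (r x : WithTop ℚ)) :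
    v (∏ x, f x) = ((∑ x, r x : ℚ) : WithTop ℚ) := by
  classical
  have h1 : ∀ s : Finset Q, v (∏ x ∈ s, f x) = ((∑ x ∈ s, r x : ℚ) : WithTop ℚ) := by
    intro s
    induction s using Finset.induction_on with
    | empty => simp
    | insert a s ha ih =>
      rw [Finset.prod_insert ha, Finset.sum_insert ha, AddValuation.map_mul, ih, h a,
        WithTop.coe_add]
  exact h1 Finset.univ

theorem v_pow {F : Type} [Field F] (v : AddValuation F (WithTop ℚ)) {x : F} {r : ℚ}
    (h : v x = (r : WithTop ℚ)) (n : ℕ) : v (x ^ n) = ((n * r : ℚ) : WithTop ℚ) := by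
  induction n with
  | zero => simp
  | succ n ih =>
    rw [pow_succ, AddValuation.map_mul, ih, h, ← WithTop.coe_add]
    congr 1
    push_cast
    ring

/-- A product of powers of values of rational polynomials at roots of unity which is a power of `q`
gives a relation between the slopes. -/
theorem slope_num {E₀ F Q : Type} [Field E₀] [CharZero E₀] [Field F] [CharZero F] [Fintype Q]
    {q f a N d : ℕ} (v : AddValuation F (WithTop ℚ)) (hv : v (q : F) = 1) {w : F} {z : E₀}
    {D : ι → ℚ[X]} (ha : 0 < a) (hN : 0 < N) (hf : 0 < f) (hw : IsPrimitiveRoot w (level C))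
    (hz : IsPrimitiveRoot z (level C))
    (hval : ∀ c, ∀ s : ℕ, s.Coprime (C c).degree →
      v (aeval ((w ^ (level C / (C c).degree)) ^ s) (D c)) =
        ((a * (C c).slope q f s : ℚ) : WithTop ℚ))
    (κ : Q → Σ c, (ZMod (C c).degree)ˣ)
    (h : ∏ x, (aeval (evn (z ^ (level C / (C (κ x).1).degree)) (κ x).2) (D (κ x).1)) ^ N =
      (q : E₀) ^ (a * N * d))
    (hd : 2 * d = ∑ x, (C (κ x).1).rank) : IsTateCharacter q f C κ := by
  classical
  intro s hs
  change ∑ x, ∑ i ∈ Finset.range f, ∑ t, frac ((s : ZMod (C (κ x).1).degree) *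
      ((κ x).2 : ZMod (C (κ x).1).degree) * (q : ZMod (C (κ x).1).degree) ^ i *
      (C (κ x).1).exponent t) = f * (∑ x, ((C (κ x).1).branchPoints : ℚ)) / 2
  have hws : IsPrimitiveRoot (w ^ s) (level C) := hw.pow_of_coprime _ hs
  have h1 := Nm.transfer level_pos hz hws (fun x => D (κ x).1)
    (fun x => level C / (C (κ x).1).degree * ((κ x).2 : ZMod (C (κ x).1).degree).val) N
    ((q : ℚ) ^ (a * N * d)) (by
      rw [map_pow, map_natCast, ← h]
      refine Finset.prod_congr rfl fun x _ => ?_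
      rw [evn, pow_mul])
  set u : Q → ℕ := fun x => s * ((κ x).2 : ZMod (C (κ x).1).degree).val with hu
  have h2 : ∀ x, (w ^ s) ^ (level C / (C (κ x).1).degree *
      ((κ x).2 : ZMod (C (κ x).1).degree).val) =
      (w ^ (level C / (C (κ x).1).degree)) ^ u x := by
    intro x
    rw [← pow_mul, ← pow_mul]
    congr 1
    rw [hu]
    ring
  have hcop : ∀ x, (u x).Coprime (C (κ x).1).degree := by
    intro x
    refine Nat.Coprime.mul_left (hs.coprime_dvd_right (dvd_level _)) ?_
    exact ZMod.val_coe_unit_coprime (κ x).2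
  simp only [h2, map_pow, map_natCast] at h1
  have h3 := congrArg v h1
  rw [v_prod v _ (fun x => N * (a * (C (κ x).1).slope q f (u x : ℕ)))
    (fun x => v_pow v (hval _ _ (hcop x)) N),
    v_pow v (r := 1) (by rw [hv]; rfl) (a * N * d)] at h3
  have h4 := WithTop.coe_injective h3
  have h5 : ∑ x, (C (κ x).1).slope q f ((u x : ℕ) : ZMod (C (κ x).1).degree) = d := by
    have hNa : ((N : ℚ) * a) ≠ 0 := by positivity
    apply mul_left_cancel₀ hNa
    rw [Finset.mul_sum]
    calc _ = ∑ x, (N : ℚ) * (a * (C (κ x).1).slope q f ((u x : ℕ) : ZMod (C (κ x).1).degree)) :=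
          Finset.sum_congr rfl fun x _ => by ring
      _ = _ := by
          rw [h4]
          push_cast
          ring
  have hf0 : (f : ℚ) ≠ 0 := by positivity
  have h7 : ∀ x, (C (κ x).1).slope q f ((u x : ℕ) : ZMod (C (κ x).1).degree) =
      (∑ i ∈ Finset.range f, ∑ t, frac ((s : ZMod (C (κ x).1).degree) *
        ((κ x).2 : ZMod (C (κ x).1).degree) * (q : ZMod (C (κ x).1).degree) ^ i *
        (C (κ x).1).exponent t)) / f - 1 := by
    intro x
    have h8 : ((u x : ℕ) : ZMod (C (κ x).1).degree) =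
        (s : ZMod (C (κ x).1).degree) * ((κ x).2 : ZMod (C (κ x).1).degree) := by
      rw [hu]
      push_cast
      rw [ZMod.natCast_zmod_val]
    rw [Covering.slope, h8]
    simp only [Covering.hodge]
    rw [Finset.sum_sub_distrib, Finset.sum_const, Finset.card_range, nsmul_eq_mul, mul_one]
    field_simp
  rw [Finset.sum_congr rfl fun x _ => h7 x, Finset.sum_sub_distrib, ← Finset.sum_div] at h5
  have h9 : (2 : ℚ) * d = ∑ x, (((C (κ x).1).branchPoints : ℚ) - 2) := by
    have h10 : ((2 * d : ℕ) : ℚ) = ((∑ x, (C (κ x).1).rank : ℕ) : ℚ) := by rw [hd]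
    push_cast at h10
    rw [h10]
    refine Finset.sum_congr rfl fun x _ => ?_
    rw [Covering.rank, Nat.cast_sub (by have := (C (κ x).1).points; omega)]
    norm_num
  rw [Finset.sum_sub_distrib] at h9
  simp only [Finset.sum_const, nsmul_eq_mul, mul_one] at h5 h9
  have h11 : (∑ x, ∑ i ∈ Finset.range f, ∑ t, frac ((s : ZMod (C (κ x).1).degree) *
        ((κ x).2 : ZMod (C (κ x).1).degree) * (q : ZMod (C (κ x).1).degree) ^ i *
        (C (κ x).1).exponent t)) / f = (∑ x, ((C (κ x).1).branchPoints : ℚ)) / 2 := by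
    linarith
  rw [div_eq_iff hf0] at h11
  rw [h11]
  ring

theorem slope_abs (hV : ∀ c, TateModule (C c) (ρ c) χ (ω c) (σ c)) {q f : ℕ} (hf : 0 < f)
    (hH : HasSlopes q f C ρ χ σ) {z : AlgebraicClosure k} (hz : IsPrimitiveRoot z (level C))
    {X : Type} [AddCommGroup X] [Module (AlgebraicClosure k) X] [FiniteDimensional (AlgebraicClosure k) X] {R : Representation (AlgebraicClosure k) Γ X}
    {E : (Σ c, (ZMod (C c).degree)ˣ) → Submodule (AlgebraicClosure k) X}
    (hfin : ∀ i, finrank (AlgebraicClosure k) (E i) = (C i.1).rank) (hst : ∀ i g, ∀ u ∈ E i, R g u ∈ E i)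
    (hdetE : ∀ i g (h : ∀ u ∈ E i, R g u ∈ E i), LinearMap.det ((R g).restrict h) =
      detOn (ext (ρ i.1 g)) (eig (σ i.1) (evn (z ^ (level C / (C i.1).degree)) i.2))
        (eig_stable (AlgebraicClosure k) (hV i.1).comm _ g))
    {Q : Type} [Fintype Q] (κ : Q → Σ c, (ZMod (C c).degree)ˣ) {d : ℕ} {Δ : Subgroup Γ}
    (h : ∀ q, ∀ g ∈ Δ, ∀ u ∈ E (κ q), R g u ∈ E (κ q))
    (hΔ : Δ.FiniteIndex) (hd : 2 * d = ∑ q, finrank (AlgebraicClosure k) (E (κ q)))
    (hdet : ∀ (g : Γ) (hg : g ∈ Δ), ∏ q, LinearMap.det ((R g).restrict (h q g hg)) =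
      chi χ g ^ d) : IsTateCharacter q f C κ := by
  classical
  obtain ⟨a, γ, D, F, _, _, v, w, ha, hχ, hw, hv, hD, hval⟩ := hH
  obtain ⟨N, hN0, -, hN⟩ := Subgroup.exists_pow_mem_of_index_ne_zero hΔ.index_ne_zero γ
  have h1 := hdet _ hN
  have h2 : ∀ x, LinearMap.det ((R (γ ^ N)).restrict (h x _ hN)) =
      (aeval (evn (z ^ (level C / (C (κ x).1).degree)) (κ x).2) (D (κ x).1)) ^ N := by
    intro x
    rw [det_pow γ (hst (κ x) γ) N (h x _ hN), hdetE]
    congr 1
    exact hD _ _ (evn_prim (prim_root hz (κ x).1) (κ x).2) _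
  rw [Finset.prod_congr rfl fun x _ => h2 x, chi, bcc_apply, map_pow, hχ, map_pow, map_pow,
    map_natCast, ← pow_mul, ← pow_mul, ← mul_assoc] at h1
  refine slope_num v hv ha hN0 hf hw hz hval κ h1 ?_
  rw [hd]
  exact Finset.sum_congr rfl fun x _ => hfin (κ x)

/-- **Tate classes**, with any rule for the products of determinants. -/
theorem main_good (hEIG : S_EIG) (hREF : S_REF)
    (hV : ∀ c, TateModule (C c) (ρ c) χ (ω c) (σ c)) (hend : HasSmallEndomorphismRings C ρ σ)
    (hF : HasFrobenius C ρ σ) (hr : HasReflections C ρ σ) {z : AlgebraicClosure k}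
    (hz : IsPrimitiveRoot z (level C))
    (good : ∀ (Q : Type) [Fintype Q], (Q → Σ c, (ZMod (C c).degree)ˣ) → Prop)
    (hthree : ∀ i : Σ c, (ZMod (C c).degree)ˣ, (C i.1).branchPoints = 3 →
      ¬good (Fin 2) fun _ => i)
    (hgood : ∀ (Q : Type) [Fintype Q] (κ : Q → Σ c, (ZMod (C c).degree)ˣ) (d : ℕ)
      (Δ : Subgroup Γ)
      (h : ∀ q, ∀ g ∈ Δ, ∀ u ∈ eigAt C σ z (κ q), rep ρ g u ∈ eigAt C σ z (κ q)),
      Δ.FiniteIndex → 2 * d = ∑ q, finrank (AlgebraicClosure k) (eigAt C σ z (κ q)) →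
      (∀ (g : Γ) (hg : g ∈ Δ), ∏ q, detOn (rep ρ g) (eigAt C σ z (κ q)) (h q g hg) =
        chi χ g ^ d) → good Q κ) :
    TateGeneratedBy (rep ρ) (chi χ) (eigAt C σ z) (fun i => (C i.1).rank) good := by
  classical
  intro m φ hφ
  have hE := irr_sum hEIG hV hend hz
  have hss := has_proj hEIG hV hend hz
  have htop : ⨆ i, blk C σ z i = ⊤ := by
    rw [eq_top_iff, ← hE.2]
    exact iSup_mono eig_le_blk
  have hline : ∀ i : Σ c, (ZMod (C c).degree)ˣ, ¬5 ≤ (C i.1).branchPoints →
      ¬Du (rep ρ) (chi χ) (eigAt C σ z i) (eigAt C σ z i) := by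
    intro i hi hdu
    have h3 : (C i.1).branchPoints = 3 := (C i.1).points.resolve_right hi
    have hrk : finrank (AlgebraicClosure k) (eigAt C σ z i) = 1 := by rw [eig_rank hV hz, Covering.rank, h3]
    have hst := eigAt_stable hV (z := z) i
    obtain ⟨Δ, hΔ, hdet⟩ := line_abs hrk hst hdu
    refine hthree i h3 (hgood (Fin 2) (fun _ => i) 1 Δ (fun _ g _ => hst g) hΔ ?_ ?_)
    · rw [Fin.sum_univ_two, hrk]
    · intro g hg
      rw [Fin.prod_univ_two, pow_one]
      exact hdet g hg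
  have h1 := refl_det_line (big := fun i => 5 ≤ (C i.1).branchPoints) (F := blk C σ z) (om ω)
    (fun u hu => om_left hV hu) (om_rep hV) hss hE
    (fun i hi => by
      rw [eig_rank hV hz, Covering.rank]
      omega)
    (fun i hi => by
      rw [eig_rank hV hz, Covering.rank, (C i.1).points.resolve_right hi])
    htop (fun i => ⟨⊤, inferInstance, fun g _ => blk_stable hV i g⟩) (blk_rank hV hz)
    (fun i hi => if_pos hi) (has_refl hEIG hREF hV hend hr hz) (has_frob hF hz)
    hline φ hφ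
  refine detProd_transport hss hE _ ?_ φ h1
  rintro ψ P Q hP hQ κ N f e B B' hB hB' ⟨d, Δ, h, hΔ, hd, hdet⟩ hψ
  have hch : good Q κ := hgood Q κ d Δ h hΔ hd hdet
  obtain rfl : N = fun q => (C (κ q).1).rank := funext fun q => by
    rw [← eig_rank hV hz (κ q), finrank_eq_card_basis (f q), Fintype.card_fin]
  exact ⟨Q, hQ, κ, hch, P, hP, e, B, fun q w => Matrix.det (Matrix.of
    fun s s' => B' q s (w s) (f q s' : Total k V)), hB, fun q => ⟨B' q, fun s => f q s, hB' q,
      fun v => rfl⟩, hψ⟩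

/-- **Tate classes on products of Jacobians of cyclic coverings** over fields of any
characteristic. -/
theorem main_at (hEIG : S_EIG) (hREF : S_REF) {q f : ℕ} (hf : 0 < f)
    (h : CyclicCoveringsAt q f C ρ χ ω σ) {z : AlgebraicClosure k} (hz : IsPrimitiveRoot z (level C)) :
    TateClassesAreFermatAt q f C ρ χ σ z := by
  obtain ⟨hV, hend, hF, hH, hr, h3⟩ := h
  exact main_good hEIG hREF hV hend hF hr hz (fun Q _ κ => IsTateCharacter q f C (Q := Q) κ) h3
    fun Q _ κ d Δ h hΔ hd hdet => slope_abs hV hf hH hz (X := Total k V) (R := rep ρ)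
      (E := eigAt C σ z) (eig_rank hV hz) (eigAt_stable hV) (det_at hV) κ h hΔ hd hdet

end

end Pool.Agent.Y128.CV
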