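import Pool.Agent.Y128.CV.CycDefs
import Pool.Agent.H204R3.GP.MTDefs

/-!
# Hodge classes in the tensor powers of the first cohomology of an abelian variety

`W` is the rational homology of a complex abelian variety, `T` its tangent space, `per : W → T` the
inclusion and `comp : W → X` the comparison map to the Tate module.
-/

set_option autoImplicit false

namespace Pool.Agent.Y128.CV

open TensorProduct Pool.Agent.H204R3.GP Pool.Agent.H204R3.SP

section generic

variable {K X Γ W T : Type} [Field K] [CharZero K] [AddCommGroup X] [Module K X] [Group Γ]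
  [AddCommGroup W] [Module ℚ W] [AddCommGroup T] [Module ℂ T]

/-- The form `φ` comes from a Hodge class: a rational form in `2 m` variables on `W` which is of type
`(m, m)`. -/
def IsHodgeForm (per : W →+ T) (comp : W →+ X) {m : ℕ} (φ : Forms K X m) : Prop :=
  ∃ ψ : MultilinearMap ℚ (fun _ : Fin m × Fin 2 => W) ℚ, IsHodgeTensor per ψ ∧ Compares comp φ ψ

/-- The theorem of Deligne: Hodge classes are Tate classes. -/
def HodgeClassesAreTate (per : W →+ T) (comp : W →+ X) (R : Representation K Γ X)
    (χ : Γ →* K) : Prop :=
  ∀ (m : ℕ) (φ : Forms K X m), IsHodgeForm per comp φ → IsTate R χ m φ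

/-- The Hodge conjecture for all powers, where `alg m` are the linear combinations of classes of
algebraic cycles. -/
def HodgeConjecture (per : W →+ T) (comp : W →+ X) (alg : ∀ m, Submodule K (Forms K X m)) :
    Prop :=
  ∀ (m : ℕ) (φ : Forms K X m), IsHodgeForm per comp φ → φ ∈ alg m

/-- The products of bilinear Tate forms and of determinants on subspaces `E (κ q)` for families `κ`
with the property `good` are linear combinations of classes of algebraic cycles. -/
def ProductsIn {I : Type} (R : Representation K Γ X) (χ : Γ →* K) (E : I → Submodule K X)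
    (r : I → ℕ) (good : ∀ (Q : Type) [Fintype Q], (Q → I) → Prop)
    (alg : ∀ m, Submodule K (Forms K X m)) : Prop :=
  ∀ (m : ℕ) (Q : Type) (_ : Fintype Q) (κ : Q → I), good Q κ → ∀ φ : Forms K X m,
    IsProductOver R χ E r κ φ → φ ∈ alg m

end generic

/-- The comparison map for a product, with coefficients extended to the algebraic closure. -/
noncomputable def compareHomology {k : Type} [Field k] {ι : Type} {W V : ι → Type}
    [∀ c, AddCommGroup (W c)] [∀ c, AddCommGroup (V c)] [∀ c, Module k (V c)]
    (j : ∀ c, W c →+ V c) : (∀ c, W c) →+ Total k V where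
  toFun w c := (1 : AlgebraicClosure k) ⊗ₜ[k] j c (w c)
  map_zero' := by
    funext c
    rw [Pi.zero_apply, map_zero, TensorProduct.tmul_zero]
    rfl
  map_add' w w' := by
    funext c
    rw [Pi.add_apply, map_add, TensorProduct.tmul_add]
    rfl

/-- The classes of degree two and the products of determinants on eigenspaces whose residues form a
Hodge character (paired if the degrees are prime), and the products of these classes, are
algebraic. -/
def FermatProductsAreAlgebraic {Γ : Type} [Group Γ] {k : Type} [Field k] [CharZero k]
    {ι : Type} [Fintype ι] [DecidableEq ι] {V : ι → Type} [∀ c, AddCommGroup (V c)]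
    [∀ c, Module k (V c)] (C : ι → Covering) (ρ : ∀ c, Representation k Γ (V c)) (χ : Γ →* k)
    (σ : ∀ c, Module.End k (V c)) (z : AlgebraicClosure k)
    (alg : ∀ m, Submodule (AlgebraicClosure k) (Forms (AlgebraicClosure k) (Total k V) m)) :
    Prop :=
  ProductsIn (rep ρ) (chi χ) (eigAt C σ z) (fun i => (C i.1).rank)
    (fun Q _ κ => IsFermat C (Q := Q) κ) alg

end Pool.Agent.Y128.CV
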