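import Pool.Agent.Y128.CV.Fin
import Pool.Agent.Y128.CV.HcDefs

/-!
# The Hodge conjecture for products of Jacobians of cyclic coverings
-/

set_option autoImplicit false
set_option linter.unusedSectionVars false

namespace Pool.Agent.Y128.CV

open Module TensorProduct Polynomial Pool.Agent.H204R3.GP Pool.Agent.H204R3.SP
  Pool.Agent.W522.U Pool.Agent.Y128.SJ Pool.Agent.TH118.CR Pool.Agent.TH118.WC
  Pool.Agent.TH118.IS
open Pool.Agent.Y128.CY (evn S_EIG S_REF S_PAIR)

variable {k : Type} [Field k] [CharZero k] {Γ : Type} [Group Γ] {ι : Type} [Fintype ι]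
  [DecidableEq ι] {V : ι → Type} [∀ c, AddCommGroup (V c)] [∀ c, Module k (V c)]
  [∀ c, FiniteDimensional k (V c)] {C : ι → Covering} {ρ : ∀ c, Representation k Γ (V c)}
  {χ : Γ →* k} {ω : ∀ c, V c →ₗ[k] V c →ₗ[k] k} {σ : ∀ c, Module.End k (V c)}
  {W T : Type} [AddCommGroup W] [Module ℚ W] [AddCommGroup T] [Module ℂ T]

/-- **The Hodge conjecture for products of Jacobians of cyclic coverings.** -/
theorem main_hc (hEIG : S_EIG) (hREF : S_REF) (hNUM : Nm.S_NUM) (hPAIR : S_PAIR)
    (h : CyclicCoverings C ρ χ ω σ) {per : W →+ T} {comp : W →+ Total k V}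
    (hdel : HodgeClassesAreTate per comp (rep ρ) (chi χ)) {z : AlgebraicClosure k}
    (hz : IsPrimitiveRoot z (level C))
    {alg : ∀ m, Submodule (AlgebraicClosure k) (Forms (AlgebraicClosure k) (Total k V) m)}
    (hA : FermatProductsAreAlgebraic C ρ χ σ z alg) : HodgeConjecture per comp alg := by
  intro m φ hφ
  have h1 := main hEIG hREF hNUM hPAIR h hz m φ (hdel m φ hφ)
  refine Submodule.span_le.2 ?_ h1
  rintro ψ ⟨Q, hQ, κ, hκ, hψ⟩
  exact hA m Q hQ κ hκ ψ hψ

end Pool.Agent.Y128.CV
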