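import Pool.Agent.Y128.CV.HcqDefs
import Pool.Agent.Y128.CV.Hc

/-!
# The algebraicity of Hodge classes with rational coefficients
-/

set_option autoImplicit false

namespace Pool.Agent.Y128.CV

open Module Pool.Agent.H204R3.GP Pool.Agent.H204R3.SP
open Pool.Agent.Y128.CY (S_EIG S_REF S_PAIR)

section generic

variable {K X W T : Type} [Field K] [CharZero K] [AddCommGroup X] [Module K X]
  [AddCommGroup W] [Module ℚ W] [AddCommGroup T] [Module ℂ T]

/-- A rational form which extends to a linear combination of classes of cycles is a rational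
linear combination of classes of cycles. -/
theorem rational_of_span {comp : W →+ X} {cyc : ∀ m, Submodule ℚ (RatForms W m)} {m : ℕ}
    {φ : Forms K X m} {ψ : RatForms W m} (hc : Compares comp φ ψ)
    (h : φ ∈ algSpan (K := K) comp cyc m) : ψ ∈ cyc m := by
  obtain ⟨f, hf⟩ := LinearMap.exists_leftInverse_of_injective (Algebra.linearMap ℚ K)
    (LinearMap.ker_eq_bot.2 (algebraMap ℚ K).injective)
  have hf1 : ∀ q : ℚ, f (q : K) = q := by
    intro q
    have h1 := congrArg (fun g : ℚ →ₗ[ℚ] ℚ => g q) hf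
    simpa using h1
  -- every element of the span gives a rational form by every functional
  have key : ∀ φ ∈ algSpan (K := K) comp cyc m, ∀ f : K →ₗ[ℚ] ℚ,
      ∃ ψ ∈ cyc m, ∀ v, ψ v = f (φ fun l => comp (v l)) := by
    intro φ hφ
    unfold algSpan at hφ
    induction hφ using Submodule.span_induction with
    | mem x hx =>
      obtain ⟨ψ, hψ, hx⟩ := hx
      intro f
      refine ⟨f 1 • ψ, (cyc m).smul_mem _ hψ, fun v => ?_⟩
      have h1 : x (fun l => comp (v l)) = ψ v • (1 : K) := by
        rw [hx v, Rat.smul_def, mul_one]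
      rw [h1, map_smul, MultilinearMap.smul_apply, smul_eq_mul, smul_eq_mul, mul_comm]
    | zero =>
      intro f
      exact ⟨0, (cyc m).zero_mem, fun v => by simp⟩
    | add x y _ _ hx hy =>
      intro f
      obtain ⟨a, ha, ha'⟩ := hx f
      obtain ⟨b, hb, hb'⟩ := hy f
      exact ⟨a + b, (cyc m).add_mem ha hb, fun v => by
        rw [MultilinearMap.add_apply, MultilinearMap.add_apply, map_add, ha', hb']⟩
    | smul c x _ hx =>
      intro f
      obtain ⟨a, ha, ha'⟩ := hx (f ∘ₗ (LinearMap.mulLeft ℚ c))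
      exact ⟨a, ha, fun v => by
        rw [ha', MultilinearMap.smul_apply, smul_eq_mul]
        rfl⟩
  obtain ⟨ψ', hψ', h1⟩ := key φ h f
  have h2 : ψ = ψ' := by
    ext v
    rw [h1 v, hc v, hf1]
  rw [h2]
  exact hψ'

end generic

variable {k : Type} [Field k] [CharZero k] {Γ : Type} [Group Γ] {ι : Type} [Fintype ι]
  [DecidableEq ι] {V : ι → Type} [∀ c, AddCommGroup (V c)] [∀ c, Module k (V c)]
  [∀ c, FiniteDimensional k (V c)] {C : ι → Covering} {ρ : ∀ c, Representation k Γ (V c)}
  {χ : Γ →* k} {ω : ∀ c, V c →ₗ[k] V c →ₗ[k] k} {σ : ∀ c, Module.End k (V c)}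
  {W T : Type} [AddCommGroup W] [Module ℚ W] [AddCommGroup T] [Module ℂ T]

/-- **Hodge classes on products of Jacobians of cyclic coverings are algebraic**, with rational
coefficients. -/
theorem main_hcq (hEIG : S_EIG) (hREF : S_REF) (hNUM : Nm.S_NUM) (hPAIR : S_PAIR)
    (h : CyclicCoverings C ρ χ ω σ) {per : W →+ T} {comp : W →+ Total k V}
    (hdel : HodgeClassesAreTate per comp (rep ρ) (chi χ))
    (hext : FormsExtend (AlgebraicClosure k) comp) {z : AlgebraicClosure k}
    (hz : IsPrimitiveRoot z (level C)) {cyc : ∀ m, Submodule ℚ (RatForms W m)}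
    (hA : FermatProductsAreAlgebraic C ρ χ σ z (algSpan comp cyc)) :
    HodgeClassesAreAlgebraic per cyc := by
  intro m ψ hψ
  obtain ⟨φ, hφ⟩ := hext m ψ
  exact rational_of_span hφ (main_hc hEIG hREF hNUM hPAIR h hdel hz hA m φ ⟨ψ, hψ, hφ⟩)

end Pool.Agent.Y128.CV
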