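import Pool.Agent.Y128.CV.HcDefs

/-!
# Classes of algebraic cycles with rational coefficients
-/

set_option autoImplicit false

namespace Pool.Agent.Y128.CV

open Pool.Agent.H204R3.GP Pool.Agent.H204R3.SP

variable {K X W T : Type} [Field K] [CharZero K] [AddCommGroup X] [Module K X]
  [AddCommGroup W] [Module ℚ W] [AddCommGroup T] [Module ℂ T]

/-- The rational forms in `2 m` variables on the rational homology `W`. -/
abbrev RatForms (W : Type) [AddCommGroup W] [Module ℚ W] (m : ℕ) : Type :=
  MultilinearMap ℚ (fun _ : Fin m × Fin 2 => W) ℚ

/-- The forms on `X` which are linear combinations of forms that compare with rational forms in `cyc m`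
(the classes of algebraic cycles). -/
def algSpan (comp : W →+ X) (cyc : ∀ m, Submodule ℚ (RatForms W m)) (m : ℕ) :
    Submodule K (Forms K X m) :=
  Submodule.span K {φ | ∃ ψ ∈ cyc m, Compares comp φ ψ}

/-- The comparison isomorphism: every rational form on the homology extends to the Tate module. -/
def FormsExtend (K : Type) [Field K] [CharZero K] {X : Type} [AddCommGroup X] [Module K X]
    (comp : W →+ X) : Prop :=
  ∀ (m : ℕ) (ψ : RatForms W m), ∃ φ : Forms K X m, Compares comp φ ψ

/-- All Hodge classes are linear combinations with rational coefficients of classes of algebraic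
cycles. -/
def HodgeClassesAreAlgebraic (per : W →+ T) (cyc : ∀ m, Submodule ℚ (RatForms W m)) : Prop :=
  ∀ (m : ℕ) (ψ : RatForms W m), IsHodgeTensor per ψ → ψ ∈ cyc m

/-- The sum over all `m < M` of the spaces of rational forms in `2 m` variables: it contains the
rational topological K-theory (by the Chern character). -/
abbrev RatFormsBelow (W : Type) [AddCommGroup W] [Module ℚ W] (M : ℕ) : Type :=
  ∀ m : Fin M, RatForms W m

/-- The Hodge conjecture for all admissible subcategories (and direct factors): for every projector `e`
whose image is the rational topological K-theory of the subcategory, all Hodge classes `v` in the image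
(`e v = v`) are images `e α` of rational combinations `α` of classes of algebraic cycles, that is of
classes of the algebraic K-theory. -/
def NoncommutativeHodge (per : W →+ T) (cyc : ∀ m, Submodule ℚ (RatForms W m)) : Prop :=
  ∀ (M : ℕ) (e : RatFormsBelow W M → RatFormsBelow W M) (v : RatFormsBelow W M),
    (∀ m : Fin M, IsHodgeTensor per (v m)) → e v = v →
      ∃ α : RatFormsBelow W M, (∀ m : Fin M, α m ∈ cyc m) ∧ e α = v

/-- From the Hodge conjecture to the one for admissible subcategories. -/
theorem nc_of_hodge {per : W →+ T} {cyc : ∀ m, Submodule ℚ (RatForms W m)}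
    (h : HodgeClassesAreAlgebraic per cyc) : NoncommutativeHodge per cyc :=
  fun _ _ v hv he => ⟨v, fun m => h (m : ℕ) (v m) (hv m), he⟩

end Pool.Agent.Y128.CV
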