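import Pool.Agent.Y128.CV.Tot
import Pool.Agent.Y128.CV.Abs
import Pool.Agent.Y128.CV.Num
import Pool.Agent.Y128.SJ.Main

/-!
# Tate classes on products of Jacobians of cyclic coverings: the frame
-/

set_option autoImplicit false
set_option linter.unusedSectionVars false

namespace Pool.Agent.Y128.CV

open Module TensorProduct Polynomial Pool.Agent.H204R3.GP Pool.Agent.H204R3.SP
  Pool.Agent.W522.U Pool.Agent.Y128.SJ Pool.Agent.TH118.CR Pool.Agent.TH118.IS
open Pool.Agent.Y128.CY (evn S_EIG S_REF S_PAIR)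

noncomputable section

instance (C : Covering) : NeZero C.degree := ⟨by
  have := C.three_le
  omega⟩

variable {k : Type} [Field k] [CharZero k] {Γ : Type} [Group Γ] {ι : Type} [Fintype ι]
  [DecidableEq ι] {V : ι → Type} [∀ c, AddCommGroup (V c)] [∀ c, Module k (V c)]
  [∀ c, FiniteDimensional k (V c)] {C : ι → Covering} {ρ : ∀ c, Representation k Γ (V c)}
  {χ : Γ →* k} {ω : ∀ c, V c →ₗ[k] V c →ₗ[k] k} {σ : ∀ c, Module.End k (V c)}


theorem ext_cyc {W : Type} [AddCommGroup W] [Module k W] {n : ℕ} {f : Module.End k W}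
    (hf : aeval f (cyclotomic n k) = 0) : aeval (ext f) (cyclotomic n (AlgebraicClosure k)) = 0 := by
  have h4 : aeval (f.baseChange (AlgebraicClosure k)) ((cyclotomic n k).map (algebraMap k (AlgebraicClosure k))) = 0 := by
    rw [aeval_map_algebraMap]
    have h5 : aeval (Module.End.baseChangeHom k (AlgebraicClosure k) W f) (cyclotomic n k) =
        Module.End.baseChangeHom k (AlgebraicClosure k) W (aeval f (cyclotomic n k)) := aeval_algHom_apply _ _ _
    rw [hf, map_zero] at h5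
    exact h5
  rw [map_cyclotomic] at h4
  exact h4

/-- The frame: projections to the eigenspaces. -/
theorem exists_frame (hEIG : S_EIG) (hV : ∀ c, TateModule (C c) (ρ c) χ (ω c) (σ c)) {z : AlgebraicClosure k}
    (hz : IsPrimitiveRoot z (level C)) :
    ∃ Pr : (Σ c, (ZMod (C c).degree)ˣ) → Module.End (AlgebraicClosure k) (Total k V),
      (∀ i g x, Pr i (rep ρ g x) = rep ρ g (Pr i x)) ∧ (∀ i x, Pr i x ∈ eigAt C σ z i) ∧
      ∑ i, Pr i = 1 := by
  have h := fun c => hEIG (AlgebraicClosure k) ((AlgebraicClosure k) ⊗[k] V c) (C c).degree (ext (σ c)) _ (prim_root hz c)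
    (ext_cyc (hV c).cyclotomic)
  choose P hP1 hP2 hP3 hP4 hP5 using h
  refine ⟨fun i => (inc i.1) ∘ₗ (P i.1 i.2) ∘ₗ (prj i.1), ?_, ?_, ?_⟩
  · rintro ⟨c, j⟩ g x
    have hc : ∀ Q ∈ Algebra.adjoin (AlgebraicClosure k) {ext (σ c)}, Q * bcr (ρ c) (AlgebraicClosure k) g = bcr (ρ c) (AlgebraicClosure k) g * Q := by
      intro Q hQ
      have h1 : Algebra.adjoin (AlgebraicClosure k) {ext (σ c)} ≤ Subalgebra.centralizer (AlgebraicClosure k) {bcr (ρ c) (AlgebraicClosure k) g} := by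
        refine Algebra.adjoin_le ?_
        rintro _ rfl
        rw [SetLike.mem_coe, Subalgebra.mem_centralizer_iff]
        rintro _ rfl
        exact bcr_comm (AlgebraicClosure k) (hV c).comm g
      have h2 := h1 hQ
      rw [Subalgebra.mem_centralizer_iff] at h2
      exact (h2 _ rfl).symm
    change inc c (P c j (prj c (rep ρ g x))) = rep ρ g (inc c (P c j (prj c x)))
    rw [rep_inc, prj_rep]
    congr 1
    exact congrArg (fun f : Module.End (AlgebraicClosure k) ((AlgebraicClosure k) ⊗[k] V c) => f (prj c x)) (hc _ (hP1 c j))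
  · rintro ⟨c, j⟩ x
    exact ⟨_, hP2 c j (prj c x), rfl⟩
  · apply LinearMap.ext
    intro x
    rw [LinearMap.sum_apply, Fintype.sum_sigma]
    have h1 : ∀ c, ∑ j, (inc c ∘ₗ (P c j) ∘ₗ (prj c)) x = inc c (prj c x) := by
      intro c
      have h2 := congrArg (fun f : Module.End (AlgebraicClosure k) ((AlgebraicClosure k) ⊗[k] V c) => inc c (f (prj c x))) (hP5 c)
      simp only [LinearMap.sum_apply, map_sum, Module.End.one_apply] at h2
      exact h2
    rw [Finset.sum_congr rfl fun c _ => h1 c]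
    exact sum_inc x

theorem eig_rank (hV : ∀ c, TateModule (C c) (ρ c) χ (ω c) (σ c)) {z : AlgebraicClosure k}
    (hz : IsPrimitiveRoot z (level C)) (i : Σ c, (ZMod (C c).degree)ˣ) :
    finrank (AlgebraicClosure k) (eigAt C σ z i) = (C i.1).rank := by
  rw [eigAt, eigIn, finrank_inc]
  exact (hV i.1).dim _ (evn_prim (prim_root hz i.1) i.2)

theorem rank_pos (C : Covering) : 0 < C.rank := by
  have := C.points
  rw [Covering.rank]
  omega

theorem eig_ne' (hV : ∀ c, TateModule (C c) (ρ c) χ (ω c) (σ c)) {z : AlgebraicClosure k}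
    (hz : IsPrimitiveRoot z (level C)) (i : Σ c, (ZMod (C c).degree)ˣ) :
    eig (σ i.1) (evn (z ^ (level C / (C i.1).degree)) i.2) ≠ ⊥ := by
  intro h
  have h1 := (hV i.1).dim _ (evn_prim (prim_root hz i.1) i.2)
  rw [h, finrank_bot] at h1
  have := rank_pos (C i.1)
  omega

theorem eigAt_stable (hV : ∀ c, TateModule (C c) (ρ c) χ (ω c) (σ c)) {z : AlgebraicClosure k}
    (i : Σ c, (ZMod (C c).degree)ˣ) (g : Γ) : ∀ u ∈ eigAt C σ z i, rep ρ g u ∈ eigAt C σ z i := by
  rintro _ ⟨u, hu, rfl⟩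
  exact ⟨_, eig_stable (AlgebraicClosure k) (hV i.1).comm _ g u hu, (rep_inc g i.1 u).symm⟩

theorem irr_sum (hEIG : S_EIG) (hV : ∀ c, TateModule (C c) (ρ c) χ (ω c) (σ c))
    (hend : HasSmallEndomorphismRings C ρ σ) {z : AlgebraicClosure k}
    (hz : IsPrimitiveRoot z (level C)) : SumOfSI (rep ρ) (eigAt C σ z) := by
  obtain ⟨Pr, -, h2, h3⟩ := exists_frame hEIG hV hz
  refine ⟨fun i => ?_, ?_⟩
  · rcases (C i.1).points with h | h
    · refine ⟨?_, ⟨⊤, inferInstance, fun g _ => eigAt_stable hV i g⟩, ?_⟩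
      · intro h0
        have h1 := eig_rank hV hz i
        rw [h0, finrank_bot] at h1
        have := rank_pos (C i.1)
        omega
      · intro W hW _
        have h1 : finrank (AlgebraicClosure k) (eigAt C σ z i) = 1 := by
          rw [eig_rank hV hz, Covering.rank, h]
        rcases Nat.eq_zero_or_pos (finrank (AlgebraicClosure k) W) with h4 | h4
        · left
          exact Submodule.finrank_eq_zero.1 h4
        · right
          refine Submodule.eq_of_le_of_finrank_le hW ?_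
          omega
    · exact SI_inc (eig_SI (AlgebraicClosure k) (hV i.1).comm (hV i.1).semisimple (hend i.1 h) (eig_ne' hV hz i))
  · rw [eq_top_iff]
    intro x _
    have h4 : x = ∑ i, Pr i x := by
      rw [← LinearMap.sum_apply, h3, Module.End.one_apply]
    rw [h4]
    exact Submodule.sum_mem _ fun i _ => Submodule.mem_iSup_of_mem i (h2 i x)

theorem has_proj (hEIG : S_EIG) (hV : ∀ c, TateModule (C c) (ρ c) χ (ω c) (σ c))
    (hend : HasSmallEndomorphismRings C ρ σ) {z : AlgebraicClosure k}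
    (hz : IsPrimitiveRoot z (level C)) : HasProj (rep ρ) := by
  have h := irr_sum hEIG hV hend hz
  exact Pool.Agent.Y128.CC.hasProj_of_sum (fun i g => eigAt_stable hV i g)
    (fun i => (h.1 i).2.2) h.2

/-- The blocks: the eigenspaces, but the whole factor if these are lines. -/
def blk (C : ι → Covering) (σ : ∀ c, Module.End k (V c)) (z : (AlgebraicClosure k))
    (i : Σ c, (ZMod (C c).degree)ˣ) : Submodule (AlgebraicClosure k) (Total k V) :=
  if 5 ≤ (C i.1).branchPoints then eigAt C σ z i else LinearMap.range (inc i.1)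

theorem eig_le_blk {z : AlgebraicClosure k} (i : Σ c, (ZMod (C c).degree)ˣ) : eigAt C σ z i ≤ blk C σ z i := by
  rw [blk]
  split_ifs with h
  · exact le_rfl
  · rintro _ ⟨u, -, rfl⟩
    exact ⟨u, rfl⟩

theorem blk_stable (hV : ∀ c, TateModule (C c) (ρ c) χ (ω c) (σ c)) {z : AlgebraicClosure k}
    (i : Σ c, (ZMod (C c).degree)ˣ) (g : Γ) : ∀ u ∈ blk C σ z i, rep ρ g u ∈ blk C σ z i := by
  rw [blk]
  split_ifs with h
  · exact eigAt_stable hV i g
  · rintro _ ⟨u, rfl⟩
    exact ⟨_, (rep_inc g i.1 u).symm⟩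

theorem two_lines {n : ℕ} (hn : 3 ≤ n) {W : Type} [AddCommGroup W] [Module k W]
    [FiniteDimensional k W] {f : Module.End k W} {z : AlgebraicClosure k} (hz : IsPrimitiveRoot z n)
    (h1 : Module.End.eigenspace (ext f) (evn z (1 : (ZMod n)ˣ)) ≠ ⊥)
    (h2 : Module.End.eigenspace (ext f) (evn z (-1 : (ZMod n)ˣ)) ≠ ⊥) :
    2 ≤ finrank (AlgebraicClosure k) ((AlgebraicClosure k) ⊗[k] W) := by
  have hn0 : NeZero n := ⟨by omega⟩
  have hne : evn z (1 : (ZMod n)ˣ) ≠ evn z (-1 : (ZMod n)ˣ) := by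
    intro h
    have h3 := ZMod.val_injective n (hz.pow_inj (ZMod.val_lt _) (ZMod.val_lt _) h)
    have h4 : (1 : ZMod n) = -1 := by
      rw [Units.val_one, Units.val_neg, Units.val_one] at h3
      exact h3
    have h5 : ((2 : ℕ) : ZMod n) = 0 := by
      push_cast
      linear_combination h4
    have h6 := Nat.le_of_dvd two_pos ((ZMod.natCast_eq_zero_iff 2 n).1 h5)
    omega
  have hdis : Disjoint (Module.End.eigenspace (ext f) (evn z (1 : (ZMod n)ˣ)))
      (Module.End.eigenspace (ext f) (evn z (-1 : (ZMod n)ˣ))) :=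
    Module.End.disjoint_genEigenspace (ext f) hne 1 1
  have h3 := Submodule.finrank_add_finrank_le_of_disjoint hdis
  have h4 : 0 < finrank (AlgebraicClosure k) (Module.End.eigenspace (ext f) (evn z (1 : (ZMod n)ˣ))) := by
    rw [Nat.pos_iff_ne_zero]
    exact fun h => h1 (Submodule.finrank_eq_zero.1 h)
  have h5 : 0 < finrank (AlgebraicClosure k) (Module.End.eigenspace (ext f) (evn z (-1 : (ZMod n)ˣ))) := by
    rw [Nat.pos_iff_ne_zero]
    exact fun h => h2 (Submodule.finrank_eq_zero.1 h)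
  omega

theorem blk_rank (hV : ∀ c, TateModule (C c) (ρ c) χ (ω c) (σ c)) {z : AlgebraicClosure k}
    (hz : IsPrimitiveRoot z (level C)) (i : Σ c, (ZMod (C c).degree)ˣ) :
    2 ≤ finrank (AlgebraicClosure k) (blk C σ z i) := by
  by_cases h : 5 ≤ (C i.1).branchPoints
  · have h0 : blk C σ z i = eigAt C σ z i := if_pos h
    rw [h0, eig_rank hV hz, Covering.rank]
    omega
  · have h0 : blk C σ z i = LinearMap.range (inc i.1) := if_neg h
    have h1 : finrank (AlgebraicClosure k) (LinearMap.range (inc (k := k) (V := V) i.1)) =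
        finrank (AlgebraicClosure k) ((AlgebraicClosure k) ⊗[k] V i.1) :=
      LinearMap.finrank_range_of_inj (inc_inj i.1)
    rw [h0, h1]
    exact two_lines (C i.1).three_le (prim_root hz i.1) (eig_ne' hV hz ⟨i.1, 1⟩)
      (eig_ne' hV hz ⟨i.1, -1⟩)

theorem has_frob (hF : HasFrobenius C ρ σ)
    {z : AlgebraicClosure k} (hz : IsPrimitiveRoot z (level C)) (i : Σ c, (ZMod (C c).degree)ˣ)
    (hi : 5 ≤ (C i.1).branchPoints) :
    ∃ (G : Γ) (b : Basis (Fin (finrank (AlgebraicClosure k) (Total k V))) (AlgebraicClosure k) (Total k V)),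
      (∀ l, ∃ a : AlgebraicClosure k, rep ρ G (b l) = a • b l) ∧ ∃ u ∈ eigAt C σ z i, ∃ v ∈ eigAt C σ z i,
        u ≠ 0 ∧ v ≠ 0 ∧ ∃ al be : AlgebraicClosure k, rep ρ G u = al • u ∧ rep ρ G v = be • v ∧
          ∀ k : ℕ, 0 < k → al ^ k ≠ be ^ k := by
  obtain ⟨F, hF1, hF2⟩ := hF i.1 hi
  obtain ⟨b, hb⟩ := exists_basis hF1
  obtain ⟨u, hu, v, hv, hu0, hv0, a, b', ha, hb', hab⟩ :=
    hF2 _ (evn_prim (prim_root hz i.1) i.2)
  refine ⟨F, b, hb, inc i.1 u, ⟨u, hu, rfl⟩, inc i.1 v, ⟨v, hv, rfl⟩, ?_, ?_, a, b', ?_, ?_, hab⟩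
  · intro h
    exact hu0 (inc_inj i.1 (by rw [h, map_zero]))
  · intro h
    exact hv0 (inc_inj i.1 (by rw [h, map_zero]))
  · rw [rep_inc]
    have h1 : bcr (ρ i.1) (AlgebraicClosure k) F u = a • u := ha
    rw [h1, map_smul]
  · rw [rep_inc]
    have h1 : bcr (ρ i.1) (AlgebraicClosure k) F v = b' • v := hb'
    rw [h1, map_smul]

theorem has_refl (hEIG : S_EIG) (hREF : S_REF)
    (hV : ∀ c, TateModule (C c) (ρ c) χ (ω c) (σ c))
    (hend : HasSmallEndomorphismRings C ρ σ) (hr : HasReflections C ρ σ)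
    {z : AlgebraicClosure k} (hz : IsPrimitiveRoot z (level C)) (i : Σ c, (ZMod (C c).degree)ˣ)
    (hi : 5 ≤ (C i.1).branchPoints) :
    ∃ γ : Γ, (∃ k : ℕ, 0 < k ∧ rep ρ γ ^ k = 1) ∧ ∃ ε : (Σ c, (ZMod (C c).degree)ˣ) → (AlgebraicClosure k),
      (∀ j, ReflectsOn (rep ρ) γ (blk C σ z j) (ε j)) ∧ ε i ≠ 1 ∧ ε i ≠ -1 ∧
        ∀ j : (Σ c, (ZMod (C c).degree)ˣ), 5 ≤ (C j.1).branchPoints → j ≠ i → ε j ≠ ε i := by
  classical
  have htop := (irr_sum hEIG hV hend hz).2
  obtain ⟨c, j⟩ := i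
  obtain ⟨g, hg, hg'⟩ := hr c hi
  obtain ⟨ε, hε1, hε2, hε3⟩ := hREF k (V c) (AlgebraicClosure k) (C c).degree (C c).three_le (σ c) (ρ c g)
    (hV c).cyclotomic hg ((hV c).comm g) _ (prim_root hz c)
  -- the family of eigenvalues
  let ε' : (Σ c, (ZMod (C c).degree)ˣ) → (AlgebraicClosure k) := fun i =>
    if h : i.1 = c then ε (h ▸ i.2) else 1
  have hεc : ∀ j', ε' ⟨c, j'⟩ = ε j' := fun j' => dif_pos rfl
  have hεn : ∀ c' j', c' ≠ c → ε' ⟨c', j'⟩ = 1 := fun c' j' h => dif_neg h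
  have hrefl : ∀ i, ∃ (d : Total k V) (φ : Total k V →ₗ[(AlgebraicClosure k)] (AlgebraicClosure k)), d ∈ blk C σ z i ∧ φ d = 1 ∧
      ∀ u ∈ blk C σ z i, rep ρ g u = (1 : (AlgebraicClosure k)) • (u + ((ε' i - 1) * φ u) • d) := by
    rintro ⟨c', j'⟩
    by_cases hc : c' = c
    · subst hc
      obtain ⟨d, φ, hd, hφ, hu⟩ := hε1 j'
      have hblk : blk C σ z ⟨c', j'⟩ = eigAt C σ z ⟨c', j'⟩ := if_pos hi
      rw [hblk]
      refine ⟨inc c' d, φ ∘ₗ prj c', ⟨d, hd, rfl⟩, ?_, ?_⟩
      · rw [LinearMap.comp_apply, prj_inc, hφ]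
      · rintro _ ⟨u, hu', rfl⟩
        rw [rep_inc, one_smul, LinearMap.comp_apply, prj_inc, hεc, ← map_smul, ← map_add]
        congr 1
        exact hu u hu'
    · have h0 : blk C σ z ⟨c', j'⟩ ≠ ⊥ := by
        intro h
        have h1 := blk_rank hV hz ⟨c', j'⟩
        rw [h, finrank_bot] at h1
        omega
      obtain ⟨d, hd, hd0⟩ := Submodule.exists_mem_ne_zero_of_ne_bot h0
      obtain ⟨f, hf⟩ : ∃ f : Module.Dual (AlgebraicClosure k) (Total k V), f d ≠ 0 := by
        by_contra h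
        push Not at h
        exact hd0 ((Module.forall_dual_apply_eq_zero_iff (AlgebraicClosure k) d).1 h)
      refine ⟨d, (f d)⁻¹ • f, hd, ?_, ?_⟩
      · rw [LinearMap.smul_apply, smul_eq_mul, inv_mul_cancel₀ hf]
      · intro u hu'
        obtain ⟨y, rfl⟩ : ∃ y, inc c' y = u := by
          rw [blk] at hu'
          split_ifs at hu' with h5
          · obtain ⟨y, -, hy⟩ := hu'
            exact ⟨y, hy⟩
          · exact hu'
        rw [hεn c' j' hc, sub_self, zero_mul, zero_smul, add_zero, one_smul, rep_inc]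
        have h1 : bcr (ρ c') (AlgebraicClosure k) g = 1 := by
          change (ρ c' g).baseChange (AlgebraicClosure k) = 1
          rw [hg' c' hc]
          exact LinearMap.baseChange_id
        rw [h1]
        rfl
  have hn : 0 < (C c).degree := by
    have := (C c).three_le
    omega
  refine ⟨g, ⟨2 * (C c).degree, Nat.mul_pos two_pos hn, ?_⟩, ε', fun i => ?_, ?_, ?_, ?_⟩
  · apply LinearMap.ext
    intro x
    have hle : (⨆ i, eigAt C σ z i) ≤
        LinearMap.ker ((rep ρ g) ^ (2 * (C c).degree) - 1) := by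
      rw [iSup_le_iff]
      intro i u hu
      obtain ⟨d, φ, hd, hφ, hdu⟩ := hrefl i
      have h1 := refl_pow (R := rep ρ) (c := 1) hd hφ hdu (2 * (C c).degree) u (eig_le_blk i hu)
      have h2 : ε' i ^ (2 * (C c).degree) = 1 := by
        obtain ⟨c', j'⟩ := i
        by_cases hc : c' = c
        · subst hc
          rw [hεc]
          exact (hε2 j').1
        · rw [hεn c' j' hc, one_pow]
      rw [h2, sub_self, zero_mul, zero_smul, add_zero, one_pow, one_smul, map_pow] at h1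
      rw [LinearMap.mem_ker, LinearMap.sub_apply, h1]
      exact sub_self u
    rw [htop] at hle
    have h1 := hle (show x ∈ ⊤ from trivial)
    rw [LinearMap.mem_ker, LinearMap.sub_apply] at h1
    exact sub_eq_zero.1 h1
  · obtain ⟨d, φ, hd, hφ, hdu⟩ := hrefl i
    exact ⟨1, d, φ, hd, hφ, hdu⟩
  · rw [hεc]
    exact (hε2 j).2.1
  · rw [hεc]
    exact (hε2 j).2.2
  · rintro ⟨c', j'⟩ _ hne h
    rw [hεc] at h
    by_cases hc : c' = c
    · subst hc
      rw [hεc] at h
      exact hne (by rw [hε3 _ _ h])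
    · rw [hεn c' j' hc] at h
      exact (hε2 j).2.1 h.symm

end

end Pool.Agent.Y128.CV
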