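import Pool.Agent.Y128.CV.Defs
import Pool.Agent.TH118.MT.Defs

/-!
# Hodge classes and Tate classes in the tensor powers of the first cohomology group

`W` is the rational homology of an abelian variety, `T` its tangent space, `per : W → T` the
inclusion and `comp : W → X` the comparison map to the Tate module (with coefficients in a field `K`)
with the action `R` of the Galois group and the cyclotomic character `χ`.
-/

set_option autoImplicit false

namespace Pool.Agent.Y128.CV

open TensorProduct Pool.Agent.H204R3.GP Pool.Agent.H204R3.SP Pool.Agent.TH118.MT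

section generic

variable {K X Γ W T : Type} [Field K] [CharZero K] [AddCommGroup X] [Module K X] [Group Γ]
  [AddCommGroup W] [Module ℚ W] [AddCommGroup T] [Module ℂ T]

/-- The bilinear Tate forms are linear combinations of Hodge classes of degree two. -/
def DegreeTwoIsHodge (per : W →+ T) (comp : W →+ X) (R : Representation K Γ X) (χ : Γ →* K) :
    Prop :=
  ∀ B : X →ₗ[K] X →ₗ[K] K, IsTate2 R χ B → B ∈ Submodule.span K {B' |
    ∃ B₀ : W →ₗ[ℚ] W →ₗ[ℚ] ℚ, IsHodgeBilinear per B₀ ∧
      ∀ x y, B' (comp x) (comp y) = ((B₀ x y : ℚ) : K)}

/-- Known theorems on Hodge classes and Tate classes on abelian varieties over finitely generated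
subfields of `ℂ`: the Tate conjecture for divisors (Faltings, with Lefschetz), the theorem on the
centre of the Mumford-Tate group, and the theorem of Deligne that Hodge classes are Tate classes. -/
structure AbelianVarietyTheorems (per : W →+ T) (comp : W →+ X) (R : Representation K Γ X)
    (χ : Γ →* K) : Prop where
  faltings : DegreeTwoIsHodge per comp R χ
  centre : CentreTheorem per comp R χ
  deligne : ∀ m, ∀ φ ∈ HodgeSpan (k := K) per comp m, IsTate R χ m φ

/-- The Tate classes are exactly the linear combinations of Hodge classes. -/
def TateClassesAreHodge (per : W →+ T) (comp : W →+ X) (R : Representation K Γ X)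
    (χ : Γ →* K) : Prop :=
  ∀ (m : ℕ) (φ : MultilinearMap K (fun _ : Fin m × Fin 2 => X) K),
    IsTate R χ m φ ↔ φ ∈ HodgeSpan (k := K) per comp m

end generic

/-- The comparison map for a product, with coefficients extended to the algebraic closure. -/
noncomputable def comparison {k : Type} [Field k] {ι : Type} {W V : ι → Type}
    [∀ c, AddCommGroup (W c)] [∀ c, AddCommGroup (V c)] [∀ c, Module k (V c)]
    (j : ∀ c, W c →+ V c) : (∀ c, W c) →+ Total k V where
  toFun w c := (1 : AlgebraicClosure k) ⊗ₜ[k] j c (w c)
  map_zero' := by
    funext c
    rw [Pi.zero_apply, map_zero, TensorProduct.tmul_zero]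
    rfl
  map_add' w w' := by
    funext c
    rw [Pi.add_apply, map_add, TensorProduct.tmul_add]
    rfl

end Pool.Agent.Y128.CV
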