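import Pool.Agent.Y128.CV.CycDefs
import Pool.Agent.Y128.CV.RatDefs

/-!
# Absolute Hodge classes over a field and over its closure
-/

set_option autoImplicit false

namespace Pool.Agent.Y128.CV

open Pool.Agent.H204R3.GP Pool.Agent.H204R3.SP

variable {K X Γ W T : Type} [Field K] [CharZero K] [AddCommGroup X] [Module K X] [Group Γ]
  [AddCommGroup W] [Module ℚ W] [AddCommGroup T] [Module ℂ T]

/-- The groups of absolute Hodge classes (or of motivated classes) over the algebraic closure
(`closed`) and over the given field (`field`): the Galois group acts on the first ones through finite
quotients and the invariant ones are those over the field (`GaloisClasses`), and over the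
closure they are the Hodge classes (Deligne, André). -/
structure MotivicClasses (per : W →+ T) (comp : W →+ X) (R : Representation K Γ X) (χ : Γ →* K)
    (closed field : ∀ m, AddSubgroup (Forms K X m)) : Prop where
  galois : GaloisClasses R χ closed field
  hodge : ∀ (m : ℕ) (φ : Forms K X m), φ ∈ closed m ↔
    ∃ ψ : MultilinearMap ℚ (fun _ : Fin m × Fin 2 => W) ℚ, IsHodgeTensor per ψ ∧ Compares comp φ ψ

/-- The motivic Galois group and the `ℓ`-adic monodromy group have the same invariants in the tensor
powers, and the same holds for the identity components: the forms fixed by the Galois group are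
the linear combinations of classes over the field, and the forms fixed by a subgroup of finite
index are those of classes over the closure. -/
def SameInvariants (R : Representation K Γ X) (χ : Γ →* K)
    (closed field : ∀ m, AddSubgroup (Forms K X m)) : Prop :=
  ∀ (m : ℕ) (φ : Forms K X m),
    (IsInvariant R χ m φ ↔ φ ∈ Submodule.span K (field m : Set (Forms K X m))) ∧
    (IsTate R χ m φ ↔ φ ∈ Submodule.span K (closed m : Set (Forms K X m)))

end Pool.Agent.Y128.CV
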