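import Pool.Agent.Y128.CV.Mum
import Pool.Agent.Y128.CV.Cyc
import Pool.Agent.Y128.CV.MotDefs

/-!
# The motivic Galois group for products of Jacobians of cyclic coverings
-/

set_option autoImplicit false
set_option linter.unusedSectionVars false

namespace Pool.Agent.Y128.CV

open Module TensorProduct Polynomial Pool.Agent.H204R3.GP Pool.Agent.H204R3.SP
  Pool.Agent.W522.U Pool.Agent.Y128.SJ Pool.Agent.TH118.MT
open Pool.Agent.Y128.CY (evn S_EIG S_REF S_PAIR)

section generic

variable {K X Γ W T : Type} [Field K] [CharZero K] [AddCommGroup X] [Module K X] [Group Γ]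
  [AddCommGroup W] [Module ℚ W] [AddCommGroup T] [Module ℂ T]

/-- From the Mumford-Tate conjecture to the motivic Galois group over the given field. -/
theorem same_of_hodge {per : W →+ T} {comp : W →+ X} {R : Representation K Γ X} {χ : Γ →* K}
    {closed field : ∀ m, AddSubgroup (Forms K X m)}
    (hM : MotivicClasses per comp R χ closed field) (h : TateClassesAreHodge per comp R χ) :
    SameInvariants R χ closed field := by
  classical
  intro m φ
  have hcl : HodgeSpan (k := K) per comp m = Submodule.span K (closed m : Set (Forms K X m)) := by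
    rw [HodgeSpan]
    congr 1
    exact Set.ext fun φ => ((hM.hodge m φ).symm : _)
  have hT : IsTate R χ m φ ↔ φ ∈ Submodule.span K (closed m : Set (Forms K X m)) := by
    rw [← hcl]
    exact h m φ
  refine ⟨⟨fun hφ => ?_, fun hφ => ?_⟩, hT⟩
  · have h1 := span_invariants (closed m) (hM.galois.tate m) (hM.galois.stable m) hφ
      (hT.1 ⟨⊤, inferInstance, fun g _ v => hφ g v⟩)
    refine Submodule.span_le.2 ?_ h1
    rintro α ⟨hα, hinv⟩
    obtain ⟨n, hn, hnα⟩ := hM.galois.descent m α hα hinv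
    have hn0 : (n : K) ≠ 0 := Nat.cast_ne_zero.2 hn.ne'
    have h2 : α = (n : K)⁻¹ • (n • α) := by
      rw [← Nat.cast_smul_eq_nsmul K, smul_smul, inv_mul_cancel₀ hn0, one_smul]
    rw [h2]
    exact Submodule.smul_mem _ _ (Submodule.subset_span hnα)
  · intro g v
    clear hT
    induction hφ using Submodule.span_induction with
    | mem x hx => exact hM.galois.invariant m x hx g v
    | zero => simp
    | add x y _ _ hx hy =>
      rw [_root_.add_apply, _root_.add_apply, hx, hy, mul_add]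
    | smul a x _ hx =>
      rw [MultilinearMap.smul_apply, MultilinearMap.smul_apply, hx, mul_smul_comm]

end generic

variable {k : Type} [Field k] [CharZero k] {Γ : Type} [Group Γ] {ι : Type} [Fintype ι]
  [DecidableEq ι] {V : ι → Type} [∀ c, AddCommGroup (V c)] [∀ c, Module k (V c)]
  [∀ c, FiniteDimensional k (V c)] {C : ι → Covering} {ρ : ∀ c, Representation k Γ (V c)}
  {χ : Γ →* k} {ω : ∀ c, V c →ₗ[k] V c →ₗ[k] k} {σ : ∀ c, Module.End k (V c)}
  {W T : Type} [AddCommGroup W] [Module ℚ W] [AddCommGroup T] [Module ℂ T]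

section restrict

variable {K X Γ' : Type} [Field K] [AddCommGroup X] [Module K X] [Group Γ']
  {R : Representation K Γ' X} {ψ : Γ' →* K}

theorem finite_map {Δ₀ : Subgroup Γ'} [Δ₀.FiniteIndex] {Δ : Subgroup Δ₀} (hΔ : Δ.FiniteIndex) :
    (Δ.map Δ₀.subtype).FiniteIndex := by
  refine ⟨?_⟩
  rw [Subgroup.index_map_subtype]
  exact mul_ne_zero hΔ.index_ne_zero Subgroup.FiniteIndex.index_ne_zero

/-- The Tate forms for a subgroup of finite index. -/
theorem tate_res (Δ₀ : Subgroup Γ') [Δ₀.FiniteIndex] {m : ℕ} {φ : Forms K X m} :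
    IsTate (MonoidHom.comp R Δ₀.subtype) (ψ.comp Δ₀.subtype) m φ ↔ IsTate R ψ m φ := by
  constructor
  · rintro ⟨Δ, hΔ, h⟩
    refine ⟨Δ.map Δ₀.subtype, finite_map hΔ, ?_⟩
    rintro _ ⟨g, hg, rfl⟩ v
    exact h g hg v
  · rintro ⟨Δ, hΔ, h⟩
    exact ⟨Δ.subgroupOf Δ₀, inferInstance, fun g hg v => h g hg v⟩

theorem tate2_res (Δ₀ : Subgroup Γ') [Δ₀.FiniteIndex] {B : X →ₗ[K] X →ₗ[K] K} :
    IsTate2 (MonoidHom.comp R Δ₀.subtype) (ψ.comp Δ₀.subtype) B ↔ IsTate2 R ψ B := by
  constructor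
  · rintro ⟨Δ, hΔ, h⟩
    refine ⟨Δ.map Δ₀.subtype, finite_map hΔ, ?_⟩
    rintro _ ⟨g, hg, rfl⟩ u v
    exact h g hg u v
  · rintro ⟨Δ, hΔ, h⟩
    exact ⟨Δ.subgroupOf Δ₀, inferInstance, fun g hg u v => h g hg u v⟩

variable [CharZero K] {W' T' : Type} [AddCommGroup W'] [Module ℚ W'] [AddCommGroup T']
  [Module ℂ T'] {per : W' →+ T'} {comp : W' →+ X}

theorem theorems_res (Δ₀ : Subgroup Γ') [Δ₀.FiniteIndex]
    (h : AbelianVarietyTheorems per comp R ψ) :
    AbelianVarietyTheorems per comp (MonoidHom.comp R Δ₀.subtype) (ψ.comp Δ₀.subtype) :=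
  ⟨fun B hB => h.faltings B ((tate2_res Δ₀).1 hB),
    fun m φ hφ hst => h.centre m φ ((tate_res Δ₀).1 hφ) hst,
    fun m φ hφ => (tate_res Δ₀).2 (h.deligne m φ hφ)⟩

end restrict

/-- **The motivic Galois group for products of Jacobians of cyclic coverings.** -/
theorem main_mot (hEIG : S_EIG) (hREF : S_REF) (hNUM : Nm.S_NUM) (Δ₀ : Subgroup Γ)
    [Δ₀.FiniteIndex]
    (h : CyclicCoverings C (fun c => MonoidHom.comp (ρ c) Δ₀.subtype) (χ.comp Δ₀.subtype) ω σ)
    {per : W →+ T} {comp : W →+ Total k V}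
    (hA : AbelianVarietyTheorems per comp (rep ρ) (chi χ))
    {closed field : ∀ m, AddSubgroup (Forms (AlgebraicClosure k) (Total k V) m)}
    (hM : MotivicClasses per comp (rep ρ) (chi χ) closed field) :
    SameInvariants (rep ρ) (chi χ) closed field := by
  refine same_of_hodge hM fun m φ => ?_
  rw [← tate_res Δ₀]
  exact main_mt hEIG hREF hNUM h (theorems_res Δ₀ hA) m φ

end Pool.Agent.Y128.CV
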