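import Pool.Agent.Y128.CV.Fin
import Pool.Agent.Y128.CV.RatDefs
import Pool.Agent.TH118.MT.Line

/-!
# The Mumford-Tate conjecture for products of Jacobians of cyclic coverings
-/

set_option autoImplicit false
set_option linter.unusedSectionVars false

namespace Pool.Agent.Y128.CV

open Module TensorProduct Polynomial Pool.Agent.H204R3.GP Pool.Agent.H204R3.SP
  Pool.Agent.W522.U Pool.Agent.Y128.SJ Pool.Agent.TH118.CR Pool.Agent.TH118.WC
  Pool.Agent.TH118.IS Pool.Agent.TH118.MT
open Pool.Agent.Y128.CY (evn S_EIG S_REF S_PAIR)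

noncomputable section

section gen

variable {k : Type} [Field k] [CharZero k] {Γ : Type} [Group Γ] {ι : Type} [Fintype ι]
  [DecidableEq ι] {V : ι → Type} [∀ c, AddCommGroup (V c)] [∀ c, Module k (V c)]
  [∀ c, FiniteDimensional k (V c)] {C : ι → Covering} {ρ : ∀ c, Representation k Γ (V c)}
  {χ : Γ →* k} {ω : ∀ c, V c →ₗ[k] V c →ₗ[k] k} {σ : ∀ c, Module.End k (V c)}

/-- All Tate forms are combinations of products of determinants. -/
theorem tate_det (hEIG : S_EIG) (hREF : S_REF) (hNUM : Nm.S_NUM)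
    (h : CyclicCoverings C ρ χ ω σ) {z : AlgebraicClosure k} (hz : IsPrimitiveRoot z (level C))
    (m : ℕ) (φ : MultilinearMap (AlgebraicClosure k) (fun _ : Fin m × Fin 2 => Total k V)
      (AlgebraicClosure k)) (hφ : IsTate (rep ρ) (chi χ) m φ) :
    φ ∈ Submodule.span (AlgebraicClosure k) (DetProd (rep ρ) (chi χ) m) := by
  classical
  obtain ⟨hV, hend, hF, hH, hr⟩ := h
  have hE := irr_sum hEIG hV hend hz
  have hss := has_proj hEIG hV hend hz
  have htop : ⨆ i, blk C σ z i = ⊤ := by
    rw [eq_top_iff, ← hE.2]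
    exact iSup_mono eig_le_blk
  exact refl_det_line (big := fun i => 5 ≤ (C i.1).branchPoints) (F := blk C σ z) (om ω)
    (fun u hu => om_left hV hu) (om_rep hV) hss hE
    (fun i hi => by
      rw [eig_rank hV hz, Covering.rank]
      omega)
    (fun i hi => by
      rw [eig_rank hV hz, Covering.rank, (C i.1).points.resolve_right hi])
    htop (fun i => ⟨⊤, inferInstance, fun g _ => blk_stable hV i g⟩) (blk_rank hV hz)
    (fun i hi => if_pos hi) (has_refl hEIG hREF hV hend hr hz) (has_frob hF hz)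
    (not_self_dual hNUM hV hH hz) φ hφ

end gen

variable {k : Type} [Field k] [CharZero k] {Γ : Type} [Group Γ] {ι : Type} [Fintype ι]
  [DecidableEq ι] {V : ι → Type} [∀ c, AddCommGroup (V c)] [∀ c, Module k (V c)]
  [∀ c, FiniteDimensional k (V c)] {C : ι → Covering} {ρ : ∀ c, Representation k Γ (V c)}
  {χ : Γ →* k} {ω : ∀ c, V c →ₗ[k] V c →ₗ[k] k} {σ : ∀ c, Module.End k (V c)}
  {W T : Type} [AddCommGroup W] [Module ℚ W] [AddCommGroup T] [Module ℂ T]

/-- **The Mumford-Tate conjecture for products of Jacobians of cyclic coverings.** -/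
theorem main_mt (hEIG : S_EIG) (hREF : S_REF) (hNUM : Nm.S_NUM)
    (h : CyclicCoverings C ρ χ ω σ) {per : W →+ T} {comp : W →+ Total k V}
    (hA : AbelianVarietyTheorems per comp (rep ρ) (chi χ)) :
    TateClassesAreHodge per comp (rep ρ) (chi χ) := by
  obtain ⟨hF, hcen, hdel⟩ := hA
  have hlev : level C ≠ 0 := by
    rw [level, Ne, Finset.lcm_eq_zero_iff]
    rintro ⟨c, -, hc⟩
    have := (C c).three_le
    have h1 : (C c).degree = 0 := hc
    omega
  have hne : NeZero ((level C : ℕ) : AlgebraicClosure k) := ⟨by exact_mod_cast hlev⟩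
  obtain ⟨z, hz⟩ := HasEnoughRootsOfUnity.exists_primitiveRoot (AlgebraicClosure k) (level C)
  have hss := has_proj hEIG h.tate h.endomorphisms hz
  have h1 : MumfordTate per comp (rep ρ) (chi χ) :=
    mumfordTate_of_det (om ω) (fun u hu => om_left h.tate hu) (om_rep h.tate) hss
      hF hcen (fun m φ hφ => tate_det hEIG hREF hNUM h hz m φ hφ)
  exact fun m φ => ⟨fun hφ => h1 m φ hφ, fun hφ => hdel m φ hφ⟩

end

end Pool.Agent.Y128.CV
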