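import Pool.Agent.Y128.CV.PosDefs
import Pool.Agent.Y128.CV.Slope

/-!
# The standard conjecture of Hodge type from lifts to characteristic zero
-/

set_option autoImplicit false
set_option linter.unusedSectionVars false

namespace Pool.Agent.Y128.CV

open Module TensorProduct Polynomial Pool.Agent.H204R3.GP Pool.Agent.H204R3.SP
  Pool.Agent.W522.U Pool.Agent.Y128.SJ
open Pool.Agent.Y128.CY (evn S_EIG S_REF S_PAIR)

section generic

variable {K X Γ I : Type} [Field K] [CharZero K] [AddCommGroup X] [Module K X] [Group Γ]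
  {R : Representation K Γ X} {χ : Γ →* K}

/-- Combinations of Tate forms are Tate forms. -/
theorem tate_of_span {m : ℕ} {S : Set (Forms K X m)} (hS : ∀ φ ∈ S, IsTate R χ m φ)
    {φ : Forms K X m} (hφ : φ ∈ Submodule.span K S) : IsTate R χ m φ := by
  induction hφ using Submodule.span_induction with
  | mem x hx => exact hS x hx
  | zero => exact ⟨⊤, inferInstance, fun g _ v => by simp⟩
  | add x y _ _ hx hy =>
    obtain ⟨Δ, hΔ, h1⟩ := hx
    obtain ⟨Δ', hΔ', h2⟩ := hy
    exact ⟨Δ ⊓ Δ', inferInstance, fun g hg v => by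
      rw [_root_.add_apply, _root_.add_apply, h1 g hg.1, h2 g hg.2, mul_add]⟩
  | smul a x _ hx =>
    obtain ⟨Δ, hΔ, h1⟩ := hx
    exact ⟨Δ, hΔ, fun g hg v => by
      rw [_root_.smul_apply, _root_.smul_apply, h1 g hg, mul_smul_comm]⟩

/-- **The standard conjecture of Hodge type** if all Tate classes are combinations of classes for which the
form is known to be positive. -/
theorem hodgeType_of [FiniteDimensional K X] (A : CycleClasses R χ)
    {known : ∀ m, AddSubgroup (Forms K X m)} (hL : PositiveClasses A known)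
    (h : ∀ m φ, IsTate R χ m φ → φ ∈ Submodule.span K (known m : Set (Forms K X m))) :
    HodgeType A := by
  classical
  intro m α hα h0
  obtain ⟨b, hb, hspan, hind⟩ := exists_linearIndependent K (known m : Set (Forms K X m))
  have hfin : Finite b := hind.finite
  have : Fintype b := Fintype.ofFinite b
  have hbc : ∀ β : b, (β : Forms K X m) ∈ A.closed m := fun β => hL.le m (hb β.2)
  have hbT : ∀ φ ∈ b, IsTate R χ m φ := fun φ hφ => A.galois.tate m φ (hL.le m (hb hφ))
  have hker : ∀ φ, IsTate R χ m φ → (∀ β : b, A.pairing m φ β = 0) → φ = 0 := by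
    intro φ hφ h0
    have h2 : ∀ ψ ∈ Submodule.span K b, A.pairing m φ ψ = 0 := by
      intro ψ hψ
      induction hψ using Submodule.span_induction with
      | mem x hx => exact h0 ⟨x, hx⟩
      | zero => exact map_zero _
      | add x y _ _ hx hy => rw [map_add, hx, hy, add_zero]
      | smul a x _ hx => rw [map_smul, hx, smul_zero]
    refine A.intersection.nondegenerate m φ hφ fun ψ hψ => h2 ψ ?_
    rw [hspan]
    exact h m ψ hψ
  have hmem : α ∈ Submodule.span K (Set.range ((↑) : b → Forms K X m)) := by
    rw [Subtype.range_coe, hspan]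
    exact h m α (A.galois.tate m α hα)
  obtain ⟨c, hc⟩ := (Submodule.mem_span_range_iff_exists_fun K).1 hmem
  -- a rational functional
  obtain ⟨f, hf⟩ := LinearMap.exists_leftInverse_of_injective (Algebra.linearMap ℚ K)
    (LinearMap.ker_eq_bot.2 (algebraMap ℚ K).injective)
  have hf1 : ∀ q : ℚ, f (q : K) = q := by
    intro q
    have h1 := congrArg (fun g : ℚ →ₗ[ℚ] ℚ => g q) hf
    simpa using h1
  choose n hn using fun β : b => A.intersection.integral m α hα β (hbc β)
  choose G hG using fun (β β' : b) => A.intersection.integral m β (hbc β) β' (hbc β')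
  have hrat : α = ∑ β : b, ((f (c β) : ℚ) : K) • (β : Forms K X m) := by
    rw [← sub_eq_zero]
    refine hker _ ?_ fun β' => ?_
    · refine tate_of_span (S := (A.closed m : Set (Forms K X m))) (A.galois.tate m) ?_
      exact Submodule.sub_mem _ (Submodule.subset_span hα) (Submodule.sum_mem _ fun β _ =>
        Submodule.smul_mem _ _ (Submodule.subset_span (hbc β)))
    · rw [map_sub, LinearMap.sub_apply, hn β', sub_eq_zero]
      have h1 : (n β' : K) = ∑ β : b, c β * (G β β' : K) := by
        rw [← hn β', ← hc, map_sum, LinearMap.sum_apply]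
        refine Finset.sum_congr rfl fun β _ => ?_
        rw [map_smul, LinearMap.smul_apply, hG, smul_eq_mul]
      have h2 : ∀ β : b, f (c β * (G β β' : K)) = f (c β) * G β β' := by
        intro β
        have h3 : c β * (G β β' : K) = (G β β' : ℚ) • c β := by
          rw [Rat.smul_def, mul_comm]
          push_cast
          rfl
        rw [h3, map_smul, smul_eq_mul, mul_comm]
      have h4 : (n β' : ℚ) = ∑ β : b, f (c β) * G β β' := by
        have h5 := congrArg f h1
        rw [map_sum, Finset.sum_congr rfl fun β _ => h2 β] at h5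
        rw [← h5]
        have h6 := hf1 (n β' : ℚ)
        rw [← h6]
        congr 1
        push_cast
        rfl
      rw [map_sum, LinearMap.sum_apply]
      have h7 : ((n β' : ℚ) : K) = ∑ β : b, ((f (c β) : ℚ) : K) * (G β β' : K) := by
        rw [h4]
        push_cast
        rfl
      have h8 : ((n β' : ℚ) : K) = (n β' : K) := by push_cast; rfl
      rw [← h8, h7]
      refine Finset.sum_congr rfl fun β _ => ?_
      rw [map_smul, LinearMap.smul_apply, hG, smul_eq_mul]
  -- a multiple of α is known
  let N : ℕ := ∏ β : b, (f (c β)).den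
  have hN : N ≠ 0 := Finset.prod_ne_zero_iff.2 fun β _ => (f (c β)).den_nz
  have hNK : (N : K) ≠ 0 := Nat.cast_ne_zero.2 hN
  have hint : ∀ β : b, ∃ a : ℤ, (N : K) * ((f (c β) : ℚ) : K) = a := by
    intro β
    obtain ⟨d, hd⟩ : (f (c β)).den ∣ N := Finset.dvd_prod_of_mem _ (Finset.mem_univ β)
    refine ⟨d * (f (c β)).num, ?_⟩
    have h1 : (f (c β)) * (f (c β)).den = (f (c β)).num := Rat.mul_den_eq_num _
    have h2 : ((f (c β) : ℚ) : K) * ((f (c β)).den : K) = ((f (c β)).num : K) := by
      exact_mod_cast congrArg (fun q : ℚ => (q : K)) h1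
    rw [hd]
    push_cast
    rw [← h2]
    ring
  choose a ha using hint
  have hNα : (N : K) • α ∈ known m := by
    rw [hrat, Finset.smul_sum]
    refine (known m).sum_mem fun β _ => ?_
    rw [smul_smul, ha β, Int.cast_smul_eq_zsmul]
    exact (known m).zsmul_mem (hb β.2) _
  have hne : (N : K) • α ≠ 0 := fun h1 => h0 ((smul_eq_zero.1 h1).resolve_left hNK)
  obtain ⟨x, hx, hxα⟩ := hL.positive m _ hNα hne
  refine ⟨x / (N : ℚ) ^ 2, div_pos hx (pow_pos (by exact_mod_cast Nat.pos_of_ne_zero hN) 2), ?_⟩
  rw [map_smul, map_smul, LinearMap.smul_apply, smul_eq_mul, smul_eq_mul] at hxα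
  push_cast
  rw [eq_div_iff (pow_ne_zero 2 hNK), ← hxα]
  ring

/-- From the generation of the Tate forms by known products. -/
theorem hodgeType_of_generated [FiniteDimensional K X] {E : I → Submodule K X} {r : I → ℕ}
    {good : ∀ (Q : Type) [Fintype Q], (Q → I) → Prop} (h : TateGeneratedBy R χ E r good)
    (A : CycleClasses R χ) {known : ∀ m, AddSubgroup (Forms K X m)} (hL : PositiveClasses A known)
    (hA : ProductsAreKnown R χ known E r good) : HodgeType A := by
  refine hodgeType_of A hL fun m φ hφ => Submodule.span_le.2 ?_ (h m φ hφ)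
  rintro ψ ⟨Q, hQ, κ, hκ, hψ⟩
  exact hA m Q hQ κ hκ ψ hψ

end generic

variable {k : Type} [Field k] [CharZero k] {Γ : Type} [Group Γ] {ι : Type} [Fintype ι]
  [DecidableEq ι] {V : ι → Type} [∀ c, AddCommGroup (V c)] [∀ c, Module k (V c)]
  [∀ c, FiniteDimensional k (V c)]

/-- **The standard conjecture of Hodge type for products of Jacobians of cyclic coverings.** -/
theorem main_pos (hEIG : S_EIG) (hREF : S_REF) {q f : ℕ} (hf : 0 < f) {C : ι → Covering}
    {ρ : ∀ c, Representation k Γ (V c)} {χ : Γ →* k} {ω : ∀ c, V c →ₗ[k] V c →ₗ[k] k}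
    {σ : ∀ c, Module.End k (V c)} (h : CyclicCoveringsAt q f C ρ χ ω σ)
    {z : AlgebraicClosure k} (hz : IsPrimitiveRoot z (level C))
    (A : CycleClasses (rep ρ) (chi χ))
    {known : ∀ m, AddSubgroup (Forms (AlgebraicClosure k) (Total k V) m)}
    (hL : PositiveClasses A known) (hA : FermatClassesAreKnown q f C ρ χ σ z known) :
    HodgeType A :=
  hodgeType_of_generated (main_at hEIG hREF hf h hz) A hL hA

end Pool.Agent.Y128.CV
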