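import Pool.Agent.Y128.CV.CycDefs
import Pool.Agent.Y128.CV.SlopeDefs

/-!
# Positivity of the intersection form
-/

set_option autoImplicit false

namespace Pool.Agent.Y128.CV

open Pool.Agent.H204R3.GP Pool.Agent.H204R3.SP

section generic

variable {K X Γ I : Type} [Field K] [CharZero K] [AddCommGroup X] [Module K X] [Group Γ]

/-- The groups `known m` of classes of algebraic cycles on which the pairing (the polarization form on
the tensor powers of the first cohomology) is known to be positive: for example the classes which
are reductions of classes of algebraic cycles from characteristic zero, by the Hodge-Riemann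
relations, or which come from products of supersingular curves. -/
structure PositiveClasses {R : Representation K Γ X} {χ : Γ →* K} (A : CycleClasses R χ)
    (known : ∀ m, AddSubgroup (Forms K X m)) : Prop where
  le : ∀ m, known m ≤ A.closed m
  positive : ∀ m, ∀ α ∈ known m, α ≠ 0 → ∃ x : ℚ, 0 < x ∧ A.pairing m α α = x

/-- The products of bilinear Tate forms and of determinants on subspaces `E (κ q)` for families `κ`
with the property `good` are linear combinations of classes in the groups `known m`. -/
def ProductsAreKnown (R : Representation K Γ X) (χ : Γ →* K)
    (known : ∀ m, AddSubgroup (Forms K X m)) (E : I → Submodule K X) (r : I → ℕ)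
    (good : ∀ (Q : Type) [Fintype Q], (Q → I) → Prop) : Prop :=
  ∀ (m : ℕ) (Q : Type) (_ : Fintype Q) (κ : Q → I), good Q κ → ∀ φ : Forms K X m,
    IsProductOver R χ E r κ φ → φ ∈ Submodule.span K (known m : Set (Forms K X m))

/-- The standard conjecture of Hodge type for the powers: the pairing is positive definite on the
classes of algebraic cycles. -/
def HodgeType {R : Representation K Γ X} {χ : Γ →* K} (A : CycleClasses R χ) : Prop :=
  ∀ m, ∀ α ∈ A.closed m, α ≠ 0 → ∃ x : ℚ, 0 < x ∧ A.pairing m α α = x

end generic

/-- The classes of degree two and the products of determinants on eigenspaces which satisfy the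
condition of Shioda and Katsura, and the products of these classes, are combinations of classes in the
groups `known m`. -/
def FermatClassesAreKnown (q f : ℕ) {Γ : Type} [Group Γ] {k : Type} [Field k] [CharZero k]
    {ι : Type} [Fintype ι] [DecidableEq ι] {V : ι → Type} [∀ c, AddCommGroup (V c)]
    [∀ c, Module k (V c)] (C : ι → Covering) (ρ : ∀ c, Representation k Γ (V c)) (χ : Γ →* k)
    (σ : ∀ c, Module.End k (V c)) (z : AlgebraicClosure k)
    (known : ∀ m, AddSubgroup (Forms (AlgebraicClosure k) (Total k V) m)) : Prop :=
  ProductsAreKnown (rep ρ) (chi χ) known (eigAt C σ z) (fun i => (C i.1).rank)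
    fun Q _ κ => IsTateCharacter q f C (Q := Q) κ

end Pool.Agent.Y128.CV
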