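import Pool.Agent.Y128.CV.RatDefs

/-!
# Tate classes at a point and on a family through the point
-/

set_option autoImplicit false

namespace Pool.Agent.Y128.CV

open Pool.Agent.H204R3.GP Pool.Agent.H204R3.SP

/-- The two representations on the same space (with their characters) have the same Tate classes in
all tensor powers of even degree. -/
def SameTateClasses {K X Γ₁ Γ₂ : Type} [Field K] [AddCommGroup X] [Module K X] [Group Γ₁]
    [Group Γ₂] (R₁ : Representation K Γ₁ X) (χ₁ : Γ₁ →* K) (R₂ : Representation K Γ₂ X)
    (χ₂ : Γ₂ →* K) : Prop :=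
  ∀ (m : ℕ) (φ : MultilinearMap K (fun _ : Fin m × Fin 2 => X) K),
    IsTate R₁ χ₁ m φ ↔ IsTate R₂ χ₂ m φ

/-- All Hodge classes of the fibre at a point are Tate classes on the family with the representation
`R`: this holds if the generic Mumford-Tate group of the family is that of the fibre (Deligne). -/
def HodgeClassesExtend {K X Γ W T : Type} [Field K] [CharZero K] [AddCommGroup X] [Module K X]
    [Group Γ] [AddCommGroup W] [Module ℚ W] [AddCommGroup T] [Module ℂ T] (per : W →+ T)
    (comp : W →+ X) (R : Representation K Γ X) (χ : Γ →* K) : Prop :=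
  ∀ m, ∀ φ ∈ Pool.Agent.TH118.MT.HodgeSpan (k := K) per comp m, IsTate R χ m φ

/-- The rational spaces `H m` of forms on `W` give the Tate classes: the Tate classes are the linear
combinations of the forms which come from `H m`. -/
def TateClassesComeFrom {K X Γ W : Type} [Field K] [CharZero K] [AddCommGroup X] [Module K X]
    [Group Γ] [AddCommGroup W] [Module ℚ W] (comp : W →+ X) (R : Representation K Γ X)
    (χ : Γ →* K) (H : ∀ m, Submodule ℚ (MultilinearMap ℚ (fun _ : Fin m × Fin 2 => W) ℚ)) : Prop :=
  ∀ (m : ℕ) (φ : MultilinearMap K (fun _ : Fin m × Fin 2 => X) K),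
    IsTate R χ m φ ↔ φ ∈ Submodule.span K {φ' | ∃ ψ ∈ H m, Compares comp φ' ψ}

end Pool.Agent.Y128.CV
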