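import Pool.Agent.Y128.CV.Mum
import Pool.Agent.Y128.CV.SpcDefs

/-!
# Special points and common rational forms
-/

set_option autoImplicit false
set_option linter.unusedSectionVars false

namespace Pool.Agent.Y128.CV

open Module TensorProduct Polynomial Pool.Agent.H204R3.GP Pool.Agent.H204R3.SP
  Pool.Agent.W522.U Pool.Agent.Y128.SJ Pool.Agent.TH118.MT
open Pool.Agent.Y128.CY (evn S_EIG S_REF S_PAIR)

section generic

variable {K X Γ W T : Type} [Field K] [CharZero K] [AddCommGroup X] [Module K X] [Group Γ]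
  [AddCommGroup W] [Module ℚ W] [AddCommGroup T] [Module ℂ T]

/-- The space of the Hodge tensors. -/
def hodgeTensors (per : W →+ T) (m : ℕ) :
    Submodule ℚ (MultilinearMap ℚ (fun _ : Fin m × Fin 2 => W) ℚ) where
  carrier := {ψ | IsHodgeTensor per ψ}
  zero_mem' := ⟨0, fun _ => by simp, fun _ _ _ => by simp⟩
  add_mem' := by
    rintro ψ ψ' ⟨Ψ, h1, h2⟩ ⟨Ψ', h1', h2'⟩
    refine ⟨Ψ + Ψ', fun v => ?_, fun z hz u => ?_⟩
    · rw [_root_.add_apply, _root_.add_apply, h1, h1']
      push_cast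
      rfl
    · rw [_root_.add_apply, _root_.add_apply, h2 z hz, h2' z hz]
  smul_mem' := by
    rintro a ψ ⟨Ψ, h1, h2⟩
    refine ⟨(a : ℝ) • Ψ, fun v => ?_, fun z hz u => ?_⟩
    · rw [_root_.smul_apply, _root_.smul_apply, h1, smul_eq_mul, smul_eq_mul]
      push_cast
      rfl
    · rw [_root_.smul_apply, _root_.smul_apply, h2 z hz]

end generic

variable {k : Type} [Field k] [CharZero k] {Γ : Type} [Group Γ] {ι : Type} [Fintype ι]
  [DecidableEq ι] {V : ι → Type} [∀ c, AddCommGroup (V c)] [∀ c, Module k (V c)]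
  [∀ c, FiniteDimensional k (V c)] {C : ι → Covering}
  {ω : ∀ c, V c →ₗ[k] V c →ₗ[k] k} {σ : ∀ c, Module.End k (V c)}
  {W T : Type} [AddCommGroup W] [Module ℚ W] [AddCommGroup T] [Module ℂ T]

/-- **Points which are not Galois special.** -/
theorem main_spc (hEIG : S_EIG) (hREF : S_REF) (hNUM : Nm.S_NUM) {Γ' : Type} [Group Γ']
    (s : Γ →* Γ') {ρ : ∀ c, Representation k Γ' (V c)} {χ : Γ' →* k}
    (h : CyclicCoverings C (fun c => MonoidHom.comp (ρ c) s) (χ.comp s) ω σ)
    {per : W →+ T} {comp : W →+ Total k V}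
    (hA : AbelianVarietyTheorems per comp (rep fun c => MonoidHom.comp (ρ c) s)
      (chi (χ.comp s)))
    (hY : HodgeClassesExtend per comp (rep ρ) (chi χ)) :
    SameTateClasses (rep ρ) (chi χ) (rep fun c => MonoidHom.comp (ρ c) s) (chi (χ.comp s)) := by
  intro m φ
  refine ⟨?_, fun hφ => hY m φ ((main_mt hEIG hREF hNUM h hA m φ).1 hφ)⟩
  rintro ⟨Δ, hΔ, hφ⟩
  have hfin : (Δ.comap s).FiniteIndex := by
    refine ⟨?_⟩
    rw [Subgroup.index_comap]
    have h1 : (Δ.subgroupOf s.range).FiniteIndex := inferInstance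
    exact h1.index_ne_zero
  exact ⟨Δ.comap s, hfin, fun g hg v => hφ (s g) hg v⟩

/-- **The common rational form.** -/
theorem main_form (hEIG : S_EIG) (hREF : S_REF) (hNUM : Nm.S_NUM)
    {ρ : ∀ c, Representation k Γ (V c)} {χ : Γ →* k} (h : CyclicCoverings C ρ χ ω σ)
    {per : W →+ T} {comp : W →+ Total k V}
    (hA : AbelianVarietyTheorems per comp (rep ρ) (chi χ)) :
    TateClassesComeFrom comp (rep ρ) (chi χ) (hodgeTensors per) := by
  intro m φ
  have h1 : HodgeSpan (k := AlgebraicClosure k) per comp m = Submodule.span (AlgebraicClosure k)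
      {φ' | ∃ ψ ∈ hodgeTensors per m, Compares comp φ' ψ} := by
    rw [HodgeSpan]
    congr 1
  rw [← h1]
  exact main_mt hEIG hREF hNUM h hA m φ

end Pool.Agent.Y128.CV
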