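import Pool.Agent.Y128.CV.Defs
import Pool.Agent.TH118.CR.Final
import Pool.Agent.Y128.CC.Semi

/-!
# The total space of a product of Jacobians of cyclic coverings
-/

set_option autoImplicit false
set_option linter.unusedSectionVars false

namespace Pool.Agent.Y128.CV

open Module TensorProduct Polynomial Pool.Agent.H204R3.GP Pool.Agent.H204R3.SP
  Pool.Agent.W522.U Pool.Agent.Y128.SJ Pool.Agent.TH118.CR
open Pool.Agent.Y128.CY (evn S_EIG S_REF S_PAIR)

noncomputable section

variable {k : Type} [Field k] [CharZero k] {Γ : Type} [Group Γ] {ι : Type} [Fintype ι]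
  [DecidableEq ι] {V : ι → Type} [∀ c, AddCommGroup (V c)] [∀ c, Module k (V c)]
  [∀ c, FiniteDimensional k (V c)] {C : ι → Covering} {ρ : ∀ c, Representation k Γ (V c)}
  {χ : Γ →* k} {ω : ∀ c, V c →ₗ[k] V c →ₗ[k] k} {σ : ∀ c, Module.End k (V c)}


/-- the inclusion of a factor -/
abbrev inc (c : ι) : ((AlgebraicClosure k) ⊗[k] V c) →ₗ[(AlgebraicClosure k)] Total k V :=
  LinearMap.single (AlgebraicClosure k) (fun c => (AlgebraicClosure k) ⊗[k] V c) c

/-- the projection to a factor -/
abbrev prj (c : ι) : Total k V →ₗ[(AlgebraicClosure k)] ((AlgebraicClosure k) ⊗[k] V c) :=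
  LinearMap.proj (R := (AlgebraicClosure k)) (φ := fun c => (AlgebraicClosure k) ⊗[k] V c) c

theorem inc_inj (c : ι) : Function.Injective (inc (k := k) (V := V) c) :=
  Pi.single_injective (M := fun c => (AlgebraicClosure k) ⊗[k] V c) c

theorem prj_inc (c : ι) (x : (AlgebraicClosure k) ⊗[k] V c) : prj c (inc c x) = x :=
  Pi.single_eq_same (M := fun c => (AlgebraicClosure k) ⊗[k] V c) c x

theorem prj_inc_ne {c c' : ι} (h : c' ≠ c) (x : (AlgebraicClosure k) ⊗[k] V c) : prj c' (inc c x) = 0 :=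
  Pi.single_eq_of_ne (M := fun c => (AlgebraicClosure k) ⊗[k] V c) h x

theorem rep_inc (g : Γ) (c : ι) (x : (AlgebraicClosure k) ⊗[k] V c) :
    rep ρ g (inc c x) = inc c (bcr (ρ c) (AlgebraicClosure k) g x) :=
  piRep_single (E := fun c => (AlgebraicClosure k) ⊗[k] V c) (fun c => bcr (ρ c) (AlgebraicClosure k)) g c x

theorem prj_rep (g : Γ) (c : ι) (x : Total k V) :
    prj c (rep ρ g x) = bcr (ρ c) (AlgebraicClosure k) g (prj c x) := rfl

theorem sum_inc (x : Total k V) : ∑ c, inc c (prj c x) = x :=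
  Finset.univ_sum_single x

/-- A strongly irreducible subspace of a factor is strongly irreducible in the total space. -/
theorem SI_inc {c : ι} {U : Submodule (AlgebraicClosure k) ((AlgebraicClosure k) ⊗[k] V c)} (hU : SI (bcr (ρ c) (AlgebraicClosure k)) U) :
    SI (rep ρ) (U.map (inc c)) := by
  obtain ⟨h0, ⟨Δ, hΔ, hst⟩, hirr⟩ := hU
  refine ⟨?_, ⟨Δ, hΔ, ?_⟩, ?_⟩
  · intro h
    apply h0
    rw [eq_bot_iff]
    intro u hu
    have h1 : inc c u ∈ U.map (inc c) := ⟨u, hu, rfl⟩
    rw [h, Submodule.mem_bot] at h1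
    exact inc_inj c (by rw [h1, map_zero])
  · rintro g hg _ ⟨u, hu, rfl⟩
    exact ⟨_, hst g hg u hu, (rep_inc g c u).symm⟩
  · rintro W hW ⟨Δ', hΔ', hst'⟩
    have h1 : W = (W.comap (inc c)).map (inc c) := by
      rw [Submodule.map_comap_eq, inf_eq_right.2]
      exact hW.trans LinearMap.map_le_range
    have h2 : W.comap (inc c) ≤ U := by
      intro x hx
      obtain ⟨u, hu, hux⟩ := hW hx
      exact inc_inj c hux ▸ hu
    rcases hirr (W.comap (inc c)) h2 ⟨Δ', hΔ', fun g hg u hu => by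
      change inc c (bcr (ρ c) (AlgebraicClosure k) g u) ∈ W
      rw [← rep_inc]
      exact hst' g hg _ hu⟩ with h | h
    · left
      rw [h1, h, Submodule.map_bot]
    · right
      rw [h1, h]

theorem finrank_inc {c : ι} (U : Submodule (AlgebraicClosure k) ((AlgebraicClosure k) ⊗[k] V c)) :
    finrank (AlgebraicClosure k) (U.map (inc c)) = finrank (AlgebraicClosure k) U :=
  (LinearEquiv.finrank_eq (Submodule.equivMapOfInjective _ (inc_inj c) U)).symm

theorem level_pos : 0 < level C := by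
  rw [Nat.pos_iff_ne_zero, level, ne_eq, Finset.lcm_eq_zero_iff]
  rintro ⟨c, -, hc⟩
  have := (C c).three_le
  change (C c).degree = 0 at hc
  omega

theorem dvd_level (c : ι) : (C c).degree ∣ level C := Finset.dvd_lcm (Finset.mem_univ c)

theorem prim_root {z : AlgebraicClosure k} (hz : IsPrimitiveRoot z (level C)) (c : ι) :
    IsPrimitiveRoot (z ^ (level C / (C c).degree)) (C c).degree := by
  obtain ⟨d, hd⟩ := dvd_level (C := C) c
  have h0 : 0 < (C c).degree := by
    have := (C c).three_le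
    omega
  have h1 : level C / (C c).degree = d := by rw [hd, Nat.mul_div_cancel_left _ h0]
  rw [h1]
  exact hz.pow level_pos (by rw [hd, mul_comm])

theorem evn_prim {Ω : Type} [Field Ω] {n : ℕ} {z₀ : Ω} (hz : IsPrimitiveRoot z₀ n)
    (j : (ZMod n)ˣ) : IsPrimitiveRoot (evn z₀ j) n :=
  hz.pow_of_coprime _ (ZMod.val_coe_unit_coprime j)

/-- The Weil pairing of the product. -/
def pairing (ω : ∀ c, V c →ₗ[k] V c →ₗ[k] k) (x y : Total k V) : (AlgebraicClosure k) :=
  ∑ c, bcb (AlgebraicClosure k) (ω c) (x c) (y c)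

/-- The bilinear form of the total space. -/
def om (ω : ∀ c, V c →ₗ[k] V c →ₗ[k] k) : Total k V →ₗ[(AlgebraicClosure k)] Total k V →ₗ[(AlgebraicClosure k)] (AlgebraicClosure k) :=
  ∑ c, (bcb (AlgebraicClosure k) (ω c)).compl₁₂ (prj c) (prj c)

theorem om_apply (x y : Total k V) : om ω x y = pairing ω x y := by
  rw [om, pairing, LinearMap.sum_apply, LinearMap.sum_apply]
  rfl

theorem om_inc (c : ι) (x : Total k V) (y : (AlgebraicClosure k) ⊗[k] V c) :
    om ω x (inc c y) = bcb (AlgebraicClosure k) (ω c) (prj c x) y := by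
  rw [om_apply, pairing, Finset.sum_eq_single c]
  · change bcb (AlgebraicClosure k) (ω c) (x c) (prj c (inc c y)) = _
    rw [prj_inc]
    rfl
  · intro c' _ hc
    change bcb (AlgebraicClosure k) (ω c') (x c') (prj c' (inc c y)) = _
    rw [prj_inc_ne hc, map_zero]
  · intro h
    exact absurd (Finset.mem_univ _) h

theorem om_inc_left (c : ι) (x : (AlgebraicClosure k) ⊗[k] V c) (y : Total k V) :
    om ω (inc c x) y = bcb (AlgebraicClosure k) (ω c) x (prj c y) := by
  rw [om_apply, pairing, Finset.sum_eq_single c]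
  · change bcb (AlgebraicClosure k) (ω c) (prj c (inc c x)) (y c) = _
    rw [prj_inc]
    rfl
  · intro c' _ hc
    change bcb (AlgebraicClosure k) (ω c') (prj c' (inc c x)) (y c') = _
    rw [prj_inc_ne hc, map_zero, LinearMap.zero_apply]
  · intro h
    exact absurd (Finset.mem_univ _) h

theorem om_rep (hV : ∀ c, TateModule (C c) (ρ c) χ (ω c) (σ c)) (g : Γ) (u v : Total k V) :
    om ω (rep ρ g u) (rep ρ g v) = chi χ g * om ω u v := by
  rw [om_apply, om_apply, pairing, pairing, Finset.mul_sum]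
  refine Finset.sum_congr rfl fun c _ => ?_
  exact bcb_inv (ρ c) χ (ω c) (hV c).pairing.weil g (u c) (v c)

theorem om_left (hV : ∀ c, TateModule (C c) (ρ c) χ (ω c) (σ c)) {u : Total k V}
    (hu : ∀ v, om ω u v = 0) : u = 0 := by
  rw [← sum_inc u]
  refine Finset.sum_eq_zero fun c _ => ?_
  have h1 : prj c u = 0 := by
    refine bcb_nondeg_left (ω c) (hV c).pairing.nondeg
      (left_nondeg (ω c) (hV c).pairing.alt (hV c).pairing.nondeg) _ fun v => ?_
    rw [← om_inc]
    exact hu _
  rw [h1, map_zero]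

theorem om_right (hV : ∀ c, TateModule (C c) (ρ c) χ (ω c) (σ c)) {u : Total k V}
    (hu : ∀ v, om ω v u = 0) : u = 0 := by
  rw [← sum_inc u]
  refine Finset.sum_eq_zero fun c _ => ?_
  have h1 : prj c u = 0 := by
    refine bcb_nondeg_right (ω c) (hV c).pairing.nondeg
      (left_nondeg (ω c) (hV c).pairing.alt (hV c).pairing.nondeg) _ fun v => ?_
    rw [← om_inc_left]
    exact hu _
  rw [h1, map_zero]

/-- Simultaneous diagonalization. -/
theorem exists_basis {F : Γ} (hF : ∀ c, Module.End.IsSemisimple (ρ c F)) :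
    ∃ b : Basis (Fin (finrank (AlgebraicClosure k) (Total k V))) (AlgebraicClosure k) (Total k V),
      ∀ i, ∃ a : AlgebraicClosure k, rep ρ F (b i) = a • b i := by
  choose b hb using fun c => exists_diag (AlgebraicClosure k) (hF c)
  let B := Pi.basis b
  have e : (Σ c, Fin (finrank (AlgebraicClosure k) ((AlgebraicClosure k) ⊗[k] V c))) ≃ Fin (finrank (AlgebraicClosure k) (Total k V)) :=
    Fintype.equivFinOfCardEq (finrank_eq_card_basis B).symm
  refine ⟨B.reindex e, fun i => ?_⟩
  rw [Basis.reindex_apply]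
  obtain ⟨a, ha⟩ := hb (e.symm i).1 (e.symm i).2
  refine ⟨a, ?_⟩
  have h1 : B (e.symm i) = inc (e.symm i).1 (b (e.symm i).1 (e.symm i).2) := Pi.basis_apply b _
  rw [h1, rep_inc]
  have h2 : bcr (ρ (e.symm i).1) (AlgebraicClosure k) F (b (e.symm i).1 (e.symm i).2) =
      a • b (e.symm i).1 (e.symm i).2 := ha
  rw [h2, map_smul]

end

end Pool.Agent.Y128.CV
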