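import Pool.Agent.Y128.CV.CycDefs

/-!
# Algebraic classes in two fibres of a family
-/

set_option autoImplicit false

namespace Pool.Agent.Y128.CV

open Module Pool.Agent.H204R3.GP Pool.Agent.H204R3.SP

section generic

variable {K X Γ I : Type} [Field K] [AddCommGroup X] [Module K X] [Group Γ]

/-- The spaces `alg m` of linear combinations of classes of algebraic cycles are the spaces of
invariants of a set of similitudes `(h, c)` (the motivic Galois group; `c` is the action on the Tate
twist): a form in `2 m` variables belongs to `alg m` if and only if it is multiplied by `c ^ m`. -/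
def IsMotivic (alg : ∀ m, Submodule K (Forms K X m)) : Prop :=
  ∃ G : Set ((X ≃ₗ[K] X) × K), ∀ (m : ℕ) (φ : Forms K X m),
    φ ∈ alg m ↔ ∀ g ∈ G, ∀ v, φ (fun l => g.1 (v l)) = g.2 ^ m * φ v

/-- The linear combinations of classes of algebraic cycles in the fibre at the base point (`alg`) and
in another fibre (`alg'`, after parallel transport to the base point): the first are the
invariants of the motivic Galois group, flat classes of degree two are algebraic, and a product
of flat classes of degree two and of determinants on the subspaces `E i` (of dimension `r i`) which
is algebraic in the first fibre is algebraic in the second one. -/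
structure TwoFibres (R : Representation K Γ X) (χ : Γ →* K) (E : I → Submodule K X) (r : I → ℕ)
    (alg alg' : ∀ m, Submodule K (Forms K X m)) : Prop where
  motivic : IsMotivic alg
  degreeTwo : ∀ (B : X →ₗ[K] X →ₗ[K] K) (φ : Forms K X 1), IsTate2 R χ B →
    (∀ v, φ v = B (v (0, 0)) (v (0, 1))) → φ ∈ alg 1
  constant : ∀ (m : ℕ) (Q : Type) (_ : Fintype Q) (κ : Q → I) (φ : Forms K X m),
    IsProductOver R χ E r κ φ → φ ∈ alg m → φ ∈ alg' m

/-- Every flat class (over a finite covering of the base) which is algebraic at the base point is
algebraic at the other point. -/
def FlatClassesStayAlgebraic (R : Representation K Γ X) (χ : Γ →* K)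
    (alg alg' : ∀ m, Submodule K (Forms K X m)) : Prop :=
  ∀ (m : ℕ) (φ : Forms K X m), IsTate R χ m φ → φ ∈ alg m → φ ∈ alg' m

end generic

/-- The standard properties of the monodromy representations `ρ c` of the fundamental group `Γ` on the
first cohomology of a family of Jacobians of cyclic coverings with at least five branch points:
polarization `ω` and automorphism `σ`, semisimplicity (Deligne), the flat endomorphisms over finite
coverings of the base are the polynomials in `σ c`, there are elements with eigenvalues whose quotient
is not a root of unity, and reflections at a divisor where two of the branch points meet. -/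
structure MonodromyOfCoverings {Γ : Type} [Group Γ] {k : Type} [Field k] {ι : Type} [Fintype ι]
    [DecidableEq ι] {V : ι → Type} [∀ c, AddCommGroup (V c)] [∀ c, Module k (V c)]
    (C : ι → Covering) (ρ : ∀ c, Representation k Γ (V c))
    (ω : ∀ c, V c →ₗ[k] V c →ₗ[k] k) (σ : ∀ c, Module.End k (V c)) : Prop where
  points : ∀ c, 5 ≤ (C c).branchPoints
  cohomology : ∀ c, TateModule (C c) (ρ c) 1 (ω c) (σ c)
  endomorphisms : HasSmallEndomorphismRings C ρ σ
  eigenvalues : HasFrobenius C ρ σ
  reflections : HasReflections C ρ σ

end Pool.Agent.Y128.CV
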