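import Pool.Agent.Y128.CV.Fin
import Pool.Agent.Y128.CV.VarDefs
import Pool.Agent.TH118.MT.Line

/-!
# The variational Hodge conjecture for families of products of Jacobians of cyclic coverings
-/

set_option autoImplicit false
set_option linter.unusedSectionVars false

namespace Pool.Agent.Y128.CV

open Module TensorProduct Polynomial Pool.Agent.H204R3.GP Pool.Agent.H204R3.SP
  Pool.Agent.W522.U Pool.Agent.Y128.SJ Pool.Agent.TH118.CR Pool.Agent.TH118.WC
  Pool.Agent.TH118.IS
open Pool.Agent.Y128.CY (evn S_EIG S_REF S_PAIR)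

noncomputable section

section select

variable {K F J : Type} [Field K] [AddCommGroup F] [Module K F]

/-- An eigenvector which is a combination of simultaneous eigenvectors is a combination of those
with the same eigenvalues. -/
theorem select (T : J → Module.End K F) (lam : J → K) (D : Set F)
    (hD : ∀ ψ ∈ D, ∀ g, ∃ a : K, T g ψ = a • ψ) (φ : F) (hφ : φ ∈ Submodule.span K D)
    (hinv : ∀ g, T g φ = lam g • φ) :
    φ ∈ Submodule.span K {ψ | ψ ∈ D ∧ ∀ g, T g ψ = lam g • ψ} := by
  classical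
  have main : ∀ (n : ℕ) (s : Finset F), s.card = n → (∀ ψ ∈ s, ψ ∈ D) → ∀ (a : F → K) (φ : F),
      φ = ∑ ψ ∈ s, a ψ • ψ → (∀ g, T g φ = lam g • φ) →
      φ ∈ Submodule.span K {ψ | ψ ∈ D ∧ ∀ g, T g ψ = lam g • ψ} := by
    intro n
    induction n with
    | zero =>
      intro s hs _ a φ hφ _
      rw [Finset.card_eq_zero] at hs
      subst hs
      rw [hφ, Finset.sum_empty]
      exact Submodule.zero_mem _
    | succ n ih =>
      intro s hs hsD a φ hφ hinv
      by_cases hgood : ∀ ψ ∈ s, ∀ g, T g ψ = lam g • ψ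
      · rw [hφ]
        exact Submodule.sum_mem _ fun ψ hψ => Submodule.smul_mem _ _
          (Submodule.subset_span ⟨hsD ψ hψ, hgood ψ hψ⟩)
      · push Not at hgood
        obtain ⟨ψ₀, hψ₀, g, hg⟩ := hgood
        have hex : ∀ ψ, ∃ a : K, ψ ∈ s → T g ψ = a • ψ := by
          intro ψ
          by_cases h : ψ ∈ s
          · obtain ⟨a, ha⟩ := hD ψ (hsD ψ h) g
            exact ⟨a, fun _ => ha⟩
          · exact ⟨0, fun h' => absurd h' h⟩
        choose al hal using hex
        have hne : lam g - al ψ₀ ≠ 0 := fun h => hg (by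
          rw [hal ψ₀ hψ₀, ← sub_eq_zero.1 h])
        have h1 : (lam g - al ψ₀) • φ = ∑ ψ ∈ s.erase ψ₀, ((al ψ - al ψ₀) * a ψ) • ψ := by
          have h2 : T g φ = ∑ ψ ∈ s, (al ψ * a ψ) • ψ := by
            rw [hφ, map_sum]
            refine Finset.sum_congr rfl fun ψ hψ => ?_
            rw [map_smul, hal ψ hψ, smul_smul, mul_comm]
          have h3 : al ψ₀ • φ = ∑ ψ ∈ s, (al ψ₀ * a ψ) • ψ := by
            rw [hφ, Finset.smul_sum]
            exact Finset.sum_congr rfl fun ψ _ => smul_smul _ _ _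
          have h4 : (lam g - al ψ₀) • φ = ∑ ψ ∈ s, ((al ψ - al ψ₀) * a ψ) • ψ := by
            rw [sub_smul, ← hinv g, h2, h3, ← Finset.sum_sub_distrib]
            refine Finset.sum_congr rfl fun ψ _ => ?_
            rw [← sub_smul, sub_mul]
          rw [h4, ← Finset.add_sum_erase _ _ hψ₀, sub_self, zero_mul, zero_smul, zero_add]
        have h3 := ih (s.erase ψ₀) (by rw [Finset.card_erase_of_mem hψ₀, hs]; rfl)
          (fun ψ hψ => hsD ψ (Finset.mem_of_mem_erase hψ)) (fun ψ => (al ψ - al ψ₀) * a ψ)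
          ((lam g - al ψ₀) • φ) h1 (fun g' => by rw [map_smul, hinv, smul_comm])
        have h4 : φ = (lam g - al ψ₀)⁻¹ • ((lam g - al ψ₀) • φ) := by
          rw [smul_smul, inv_mul_cancel₀ hne, one_smul]
        rw [h4]
        exact Submodule.smul_mem _ _ h3
  obtain ⟨c, hc, hcφ⟩ := Submodule.mem_span_set.1 hφ
  exact main _ c.support rfl (fun ψ hψ => hc hψ) c φ hcφ.symm hinv

end select

section scale

variable {K : Type} [Field K] [CharZero K] {X : Type} [AddCommGroup X] [Module K X]
  [FiniteDimensional K X]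

/-- The determinant for a family of vectors is a multiple of the determinant for a basis. -/
theorem det_fam {n : ℕ} {U : Submodule K X} (b : Basis (Fin n) K U) (f : Fin n → U)
    (C : Fin n → X →ₗ[K] X →ₗ[K] K) (w : Fin n → X) :
    Matrix.det (Matrix.of fun s s' => C s (w s) (f s' : X)) =
      Matrix.det (Matrix.of fun s t => C s (w s) (b t : X)) *
        Matrix.det (Matrix.of fun t s' => b.repr (f s') t) := by
  rw [← Matrix.det_mul]
  congr 1
  ext s s'
  rw [Matrix.mul_apply, Matrix.of_apply]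
  have h4 := b.sum_repr (f s')
  have h5 := congrArg (fun x : U => (x : X)) h4
  simp only [Submodule.coe_sum, Submodule.coe_smul] at h5
  rw [← h5, map_sum]
  refine Finset.sum_congr rfl fun t _ => ?_
  rw [map_smul, smul_eq_mul, Matrix.of_apply, Matrix.of_apply, mul_comm]

variable {Γ I : Type} [Group Γ] {R : Representation K Γ X} {χ : Γ →* K}

/-- The products are multiplied by constants under similitudes which preserve the subspaces and
multiply the bilinear Tate forms. -/
theorem product_line {E : I → Submodule K X} {r : I → ℕ} (hr : ∀ i, finrank K (E i) = r i)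
    (h h' : X →ₗ[K] X) (c : K) (hh : ∀ u, h (h' u) = u) (hE : ∀ i, ∀ u ∈ E i, h' u ∈ E i)
    (hB : ∀ B : X →ₗ[K] X →ₗ[K] K, IsTate2 R χ B → ∀ u v, B (h u) (h v) = c * B u v)
    {Q : Type} [Fintype Q] {κ : Q → I} {m : ℕ} {φ : Forms K X m}
    (hφ : IsProductOver R χ E r κ φ) : ∃ a : K, ∀ v, φ (fun l => h (v l)) = a * φ v := by
  classical
  obtain ⟨P, hP, e, B, δ, hBT, hδ, hφ⟩ := hφ
  have h1 : ∀ q, ∃ a : K, ∀ w : Fin (r (κ q)) → X, δ q (fun s => h (w s)) = a * δ q w := by
    intro q
    obtain ⟨B', f, hB', hd⟩ := hδ q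
    let b : Basis (Fin (r (κ q))) K (E (κ q)) := Module.finBasisOfFinrankEq K (E (κ q)) (hr (κ q))
    refine ⟨c ^ r (κ q) * LinearMap.det (h'.restrict (hE (κ q))), fun w => ?_⟩
    rw [hd, hd, det_fam b f B' (fun s => h (w s)), det_fam b f B' w,
      Pool.Agent.TH118.MT.det_line b h h' c hh (hE (κ q)) B'
        (fun s u v => hB _ (hB' s) u v) w, mul_assoc]
  choose a ha using h1
  refine ⟨c ^ Fintype.card P * ∏ q, a q, fun v => ?_⟩
  rw [hφ, hφ]
  have h2 : pairProduct B (fun x => h (v (e (Sum.inl x)))) =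
      c ^ Fintype.card P * pairProduct B (fun x => v (e (Sum.inl x))) := by
    rw [pairProduct, pairProduct, Finset.prod_congr rfl fun p _ => hB _ (hBT p) _ _,
      Finset.prod_mul_distrib, Finset.prod_const, Finset.card_univ]
  rw [h2, Finset.prod_congr rfl fun q _ => ha q _, Finset.prod_mul_distrib]
  ring

end scale

variable {k : Type} [Field k] [CharZero k] {Γ : Type} [Group Γ] {ι : Type} [Fintype ι]
  [DecidableEq ι] {V : ι → Type} [∀ c, AddCommGroup (V c)] [∀ c, Module k (V c)]
  [∀ c, FiniteDimensional k (V c)] {C : ι → Covering} {ρ : ∀ c, Representation k Γ (V c)}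
  {χ : Γ →* k} {ω : ∀ c, V c →ₗ[k] V c →ₗ[k] k} {σ : ∀ c, Module.End k (V c)}

/-- All flat forms are combinations of products of bilinear flat forms and determinants. -/
theorem flat_products (hEIG : S_EIG) (hREF : S_REF) (h5 : ∀ c, 5 ≤ (C c).branchPoints)
    (hV : ∀ c, TateModule (C c) (ρ c) χ (ω c) (σ c)) (hend : HasSmallEndomorphismRings C ρ σ)
    (hF : HasFrobenius C ρ σ) (hr : HasReflections C ρ σ) {z : AlgebraicClosure k}
    (hz : IsPrimitiveRoot z (level C)) (m : ℕ)
    (φ : Forms (AlgebraicClosure k) (Total k V) m) (hφ : IsTate (rep ρ) (chi χ) m φ) :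
    φ ∈ Submodule.span (AlgebraicClosure k) {ψ | ∃ (Q : Type) (_ : Fintype Q)
      (κ : Q → Σ c, (ZMod (C c).degree)ˣ),
        IsProductOver (rep ρ) (chi χ) (eigAt C σ z) (fun i => (C i.1).rank) κ ψ} := by
  classical
  have hE := irr_sum hEIG hV hend hz
  have hss := has_proj hEIG hV hend hz
  have htop : ⨆ i, blk C σ z i = ⊤ := by
    rw [eq_top_iff, ← hE.2]
    exact iSup_mono eig_le_blk
  have h1 := refl_det_line (big := fun i => 5 ≤ (C i.1).branchPoints) (F := blk C σ z) (om ω)
    (fun u hu => om_left hV hu) (om_rep hV) hss hE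
    (fun i hi => by
      rw [eig_rank hV hz, Covering.rank]
      omega)
    (fun i hi => by
      rw [eig_rank hV hz, Covering.rank, (C i.1).points.resolve_right hi])
    htop (fun i => ⟨⊤, inferInstance, fun g _ => blk_stable hV i g⟩) (blk_rank hV hz)
    (fun i hi => if_pos hi) (has_refl hEIG hREF hV hend hr hz) (has_frob hF hz)
    (fun i hi => absurd (h5 i.1) hi) φ hφ
  refine detProd_transport hss hE _ ?_ φ h1
  rintro ψ P Q hP hQ κ N f e B B' hB hB' - hψ
  obtain rfl : N = fun q => (C (κ q).1).rank := funext fun q => by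
    rw [← eig_rank hV hz (κ q), finrank_eq_card_basis (f q), Fintype.card_fin]
  exact ⟨Q, hQ, κ, P, hP, e, B, fun q w => Matrix.det (Matrix.of
    fun s s' => B' q s (w s) (f q s' : Total k V)), hB, fun q => ⟨B' q, fun s => f q s, hB' q,
      fun v => rfl⟩, hψ⟩

/-- **The variational Hodge conjecture for families of products of Jacobians of cyclic coverings.** -/
theorem main_var (hEIG : S_EIG) (hREF : S_REF) (h : MonodromyOfCoverings C ρ ω σ)
    {z : AlgebraicClosure k} (hz : IsPrimitiveRoot z (level C))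
    {alg alg' : ∀ m, Submodule (AlgebraicClosure k) (Forms (AlgebraicClosure k) (Total k V) m)}
    (hA : TwoFibres (rep ρ) (chi (1 : Γ →* k)) (eigAt C σ z) (fun i => (C i.1).rank) alg alg') :
    FlatClassesStayAlgebraic (rep ρ) (chi (1 : Γ →* k)) alg alg' := by
  classical
  obtain ⟨h5, hV, hend, hF, hr⟩ := h
  obtain ⟨⟨G, hG⟩, h2, hcon⟩ := hA
  intro m φ hφ hφa
  have hss := has_proj hEIG hV hend hz
  -- the bilinear flat forms are multiplied by `c`
  have htwo : ∀ g ∈ G, ∀ B : Total k V →ₗ[AlgebraicClosure k] Total k V →ₗ[AlgebraicClosure k]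
      AlgebraicClosure k, IsTate2 (rep ρ) (chi (1 : Γ →* k)) B →
      ∀ u v, B (g.1 u) (g.1 v) = g.2 * B u v := by
    intro g hg B hB u v
    let ψ : Forms (AlgebraicClosure k) (Total k V) 1 := mmG (Equiv.refl _) (fun _ => B)
    have hψ : ∀ w, ψ w = B (w (0, 0)) (w (0, 1)) := by
      intro w
      change mmG (Equiv.refl _) (fun _ => B) w = _
      rw [mmG_apply, Fin.prod_univ_one]
      rfl
    have h3 := (hG 1 ψ).1 (h2 B ψ hB hψ) g hg (fun l => if l.2 = 0 then u else v)
    rw [hψ, hψ, pow_one] at h3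
    simpa using h3
  -- the eigenspaces are stable
  have hst : ∀ g ∈ G, ∀ i, ∀ u ∈ eigAt C σ z i, g.1.symm u ∈ eigAt C σ z i := by
    intro g hg i
    obtain ⟨p, hp1, hp2, hp3⟩ := hss ⊤ inferInstance (eigAt C σ z i)
      (fun s _ => eigAt_stable hV i s)
    have h1 : ∀ u v, om ω (p (g.1 u)) (g.1 v) = g.2 * om ω (p u) v := fun u v =>
      htwo g hg ((om ω).comp p) ⟨⊤, inferInstance, fun s _ u v => by
        rw [LinearMap.comp_apply, LinearMap.comp_apply, hp3 s trivial, om_rep hV]⟩ u v
    have h3 : ∀ u v, om ω (g.1 u) (g.1 v) = g.2 * om ω u v := fun u v =>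
      htwo g hg (om ω) ⟨⊤, inferInstance, fun s _ u v => om_rep hV s u v⟩ u v
    have h4 : ∀ u, p (g.1 u) = g.1 (p u) := by
      intro u
      rw [← sub_eq_zero]
      refine om_left hV fun v => ?_
      obtain ⟨v, rfl⟩ := g.1.surjective v
      rw [map_sub, LinearMap.sub_apply, h1, h3, sub_self]
    intro u hu
    have h6 : p (g.1.symm u) = g.1.symm u := by
      apply g.1.injective
      rw [← h4, g.1.apply_symm_apply, hp2 u hu]
    rw [← h6]
    exact hp1 _
  have h1 := flat_products hEIG hREF h5 hV hend hF hr hz m φ hφ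
  let T : G → Module.End (AlgebraicClosure k) (Forms (AlgebraicClosure k) (Total k V) m) :=
    fun g => MultilinearMap.compLinearMapₗ (fun _ => (g.1.1 : Total k V →ₗ[AlgebraicClosure k] Total k V))
  have hT : ∀ (g : G) (ψ : Forms (AlgebraicClosure k) (Total k V) m) v,
      T g ψ v = ψ (fun l => g.1.1 (v l)) := fun g ψ v => rfl
  have h3 := select T (fun g => g.1.2 ^ m) _ ?_ φ h1 ?_
  · refine Submodule.span_le.2 ?_ h3
    rintro ψ ⟨⟨Q, hQ, κ, hψ⟩, hψT⟩
    refine hcon m Q hQ κ ψ hψ ((hG m ψ).2 fun g hg v => ?_)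
    have h7 := congrArg (fun f : Forms (AlgebraicClosure k) (Total k V) m => f v) (hψT ⟨g, hg⟩)
    exact h7
  · rintro ψ ⟨Q, hQ, κ, hψ⟩ g
    obtain ⟨a, ha⟩ := product_line (fun i => eig_rank hV hz i) g.1.1.toLinearMap
      g.1.1.symm.toLinearMap g.1.2 (fun u => g.1.1.apply_symm_apply u)
      (fun i => hst g.1 g.2 i) (fun B hB u v => htwo g.1 g.2 B hB u v) hψ
    exact ⟨a, MultilinearMap.ext fun v => ha v⟩
  · intro g
    exact MultilinearMap.ext fun v => (hG m φ).1 hφa g.1 g.2 v

end

end Pool.Agent.Y128.CV
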